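import Pool.Agent.Helper78.CH.Defs

set_option autoImplicit false

namespace Pool.Agent.Helper78.CH

open Finset

variable {α : Type*} [DecidableEq α]

theorem mem_EI {C : Finset (Finset α)} {W e : Finset α} : e ∈ EI C W ↔ e ∈ C ∧ e ⊆ W := by
  simp [EI]

theorem EI_mono (C : Finset (Finset α)) {W W' : Finset α} (h : W ⊆ W') : EI C W ⊆ EI C W' := by
  intro e he
  rw [mem_EI] at he ⊢
  exact ⟨he.1, he.2.trans h⟩

theorem EI_empty {C : Finset (Finset α)} (hC : ∀ e ∈ C, e.card = 2) : EI C ∅ = ∅ := by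
  rw [Finset.eq_empty_iff_forall_notMem]
  intro e he
  rw [mem_EI] at he
  have h1 := hC e he.1
  rw [Finset.subset_empty.1 he.2] at h1
  simp at h1

theorem EI_subset (C : Finset (Finset α)) (W : Finset α) : EI C W ⊆ C := Finset.filter_subset _ _

theorem wt_pos {β : ℝ} (hβ : 0 < β) (C Md : Finset (Finset α)) (W A : Finset α) :
    0 < wt β C Md W A := pow_pos (inv_pos.2 hβ) _

theorem wt_le_one {β : ℝ} (hβ : 1 ≤ β) (C Md : Finset (Finset α)) (W A : Finset α) :
    wt β C Md W A ≤ 1 := by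
  have h0 : 0 ≤ β⁻¹ := inv_nonneg.2 (by linarith)
  have h1 : β⁻¹ ≤ 1 := inv_le_one_of_one_le₀ hβ
  exact pow_le_one₀ h0 h1

/-- `wt` of `A` seen from a subset `W` of `A`. -/
theorem wt_eq {β : ℝ} (hβ : 0 < β) {C : Finset (Finset α)} (hC : ∀ e ∈ C, e.card = 2)
    (Md : Finset (Finset α)) {W A : Finset α} (h : W ⊆ A) :
    wt β C Md W A = wt β C Md ∅ A * β ^ (EI C W \ Md).card := by
  unfold wt
  rw [EI_empty hC, Finset.sdiff_empty]
  have hsub : EI C W \ Md ⊆ EI C A \ Md :=
    Finset.sdiff_subset_sdiff (EI_mono C h) (Finset.Subset.refl _)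
  have heq : (EI C A \ EI C W) \ Md = (EI C A \ Md) \ (EI C W \ Md) := by
    ext e
    simp only [mem_sdiff]
    tauto
  rw [heq, Finset.card_sdiff_of_subset hsub]
  have hle := Finset.card_le_card hsub
  have hpow : β⁻¹ ^ (EI C A \ Md).card =
      β⁻¹ ^ ((EI C A \ Md).card - (EI C W \ Md).card) * β⁻¹ ^ (EI C W \ Md).card := by
    rw [← pow_add, Nat.sub_add_cancel hle]
  rw [hpow, mul_assoc, ← mul_pow, inv_mul_cancel₀ hβ.ne', one_pow, mul_one]

theorem tt_nonneg {β : ℝ} (hβ : 0 < β) (C Md F : Finset (Finset α)) (W D : Finset α) :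
    0 ≤ tt β C Md F W D :=
  Finset.sum_nonneg fun A _ => (wt_pos hβ C Md W A).le

/-- Maker declares a pair which is not inside `W`. -/
theorem tt_insert_M {β : ℝ} (hβ : 0 < β) {C Md : Finset (Finset α)}
    (F : Finset (Finset α)) {W : Finset α} (D : Finset α)
    {x : Finset α} (hxC : x ∈ C) (hxM : x ∉ Md) (hxW : ¬ x ⊆ W) :
    tt β C (insert x Md) F W D = tt β C Md F W D + (β - 1) * tt β C Md F W (D ∪ x) := by
  unfold tt
  have hfil : F.filter (fun A => W ⊆ A ∧ D ∪ x ⊆ A) =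
      (F.filter (fun A => W ⊆ A ∧ D ⊆ A)).filter (fun A => x ⊆ A) := by
    ext A
    simp only [mem_filter, Finset.union_subset_iff]
    tauto
  rw [hfil, Finset.mul_sum, Finset.sum_filter (s := F.filter (fun A => W ⊆ A ∧ D ⊆ A)),
    ← Finset.sum_add_distrib]
  apply Finset.sum_congr rfl
  intro A _
  by_cases hxA : x ⊆ A
  · rw [if_pos hxA]
    unfold wt
    have hx : x ∈ (EI C A \ EI C W) \ Md := by
      simp only [mem_sdiff, mem_EI]
      exact ⟨⟨⟨hxC, hxA⟩, fun h => hxW h.2⟩, hxM⟩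
    have heq : (EI C A \ EI C W) \ (insert x Md) = ((EI C A \ EI C W) \ Md).erase x := by
      ext e
      simp only [mem_sdiff, mem_insert, mem_erase]
      tauto
    rw [heq, Finset.card_erase_of_mem hx]
    have hpos : 0 < ((EI C A \ EI C W) \ Md).card := Finset.card_pos.2 ⟨x, hx⟩
    obtain ⟨n, hn⟩ : ∃ n, ((EI C A \ EI C W) \ Md).card = n + 1 :=
      ⟨_, (Nat.succ_pred_eq_of_pos hpos).symm⟩
    rw [hn, Nat.add_sub_cancel, pow_succ]
    field_simp
    ring
  · rw [if_neg hxA, add_zero]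
    unfold wt
    congr 2
    ext e
    simp only [mem_sdiff, mem_insert]
    constructor
    · rintro ⟨h1, h2⟩
      exact ⟨h1, fun h => h2 (Or.inr h)⟩
    · rintro ⟨h1, h2⟩
      refine ⟨h1, ?_⟩
      rintro (rfl | h)
      · exact hxA (mem_EI.1 h1.1).2
      · exact h2 h

/-- Maker declares a pair inside `W`. -/
theorem tt_insert_M_of_sub (β : ℝ) (C Md : Finset (Finset α))
    (F : Finset (Finset α)) {W : Finset α} (D : Finset α)
    {x : Finset α} (hxC : x ∈ C) (hxW : x ⊆ W) :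
    tt β C (insert x Md) F W D = tt β C Md F W D := by
  unfold tt wt
  apply Finset.sum_congr rfl
  intro A _
  congr 2
  ext e
  simp only [mem_sdiff, mem_insert]
  constructor
  · rintro ⟨h1, h2⟩
    exact ⟨h1, fun h => h2 (Or.inr h)⟩
  · rintro ⟨h1, h2⟩
    refine ⟨h1, ?_⟩
    rintro (rfl | h)
    · exact h1.2 (mem_EI.2 ⟨hxC, hxW⟩)
    · exact h2 h

/-- A pair is killed. -/
theorem tt_brk (β : ℝ) (C Md : Finset (Finset α))
    (F : Finset (Finset α)) (W D : Finset α) (y : Finset α) :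
    tt β C Md (brk F {y}) W D = tt β C Md F W D - tt β C Md F W (D ∪ y) := by
  unfold tt
  have hfil : F.filter (fun A => W ⊆ A ∧ D ∪ y ⊆ A) =
      (F.filter (fun A => W ⊆ A ∧ D ⊆ A)).filter (fun A => y ⊆ A) := by
    ext A
    simp only [mem_filter, Finset.union_subset_iff]
    tauto
  have hfil2 : (brk F {y}).filter (fun A => W ⊆ A ∧ D ⊆ A) =
      (F.filter (fun A => W ⊆ A ∧ D ⊆ A)).filter (fun A => ¬ y ⊆ A) := by
    ext A
    simp only [brk, mem_filter, mem_singleton, forall_eq]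
    tauto
  rw [hfil, hfil2, eq_sub_iff_add_eq, add_comm]
  exact Finset.sum_filter_add_sum_filter_not _ _ _

theorem tt_mono_F {β : ℝ} (hβ : 0 < β) (C Md : Finset (Finset α))
    {F F' : Finset (Finset α)} (h : F ⊆ F') (W D : Finset α) :
    tt β C Md F W D ≤ tt β C Md F' W D :=
  Finset.sum_le_sum_of_subset_of_nonneg (Finset.filter_subset_filter _ h)
    fun A _ _ => (wt_pos hβ C Md W A).le

theorem tt_mono_M {β : ℝ} (hβ : 1 ≤ β) (C : Finset (Finset α)) {Md Md' : Finset (Finset α)}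
    (h : Md ⊆ Md') (F : Finset (Finset α)) (W D : Finset α) :
    tt β C Md F W D ≤ tt β C Md' F W D := by
  unfold tt wt
  apply Finset.sum_le_sum
  intro A _
  apply pow_le_pow_of_le_one (inv_nonneg.2 (by linarith)) (inv_le_one_of_one_le₀ hβ)
  exact Finset.card_le_card (Finset.sdiff_subset_sdiff (Finset.Subset.refl _) h)

theorem tt_mono_D {β : ℝ} (hβ : 0 < β) (C Md F : Finset (Finset α)) (W : Finset α)
    {D D' : Finset α} (h : D ⊆ D') : tt β C Md F W D' ≤ tt β C Md F W D := by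
  unfold tt
  apply Finset.sum_le_sum_of_subset_of_nonneg
  · intro A hA
    simp only [mem_filter] at hA ⊢
    exact ⟨hA.1, hA.2.1, h.trans hA.2.2⟩
  · intro A _ _
    exact (wt_pos hβ C Md W A).le

/-- Atoms of `W` are automatically in all structures which contain `W`. -/
theorem tt_union_of_sub (β : ℝ) (C Md F : Finset (Finset α)) {W : Finset α} (D : Finset α)
    {y : Finset α} (hy : y ⊆ W) : tt β C Md F W (D ∪ y) = tt β C Md F W D := by
  unfold tt
  congr 1
  ext A
  simp only [mem_filter, Finset.union_subset_iff]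
  constructor
  · rintro ⟨h1, h2, h3, _⟩
    exact ⟨h1, h2, h3⟩
  · rintro ⟨h1, h2, h3⟩
    exact ⟨h1, h2, h3, hy.trans h2⟩

/-- From `W` to a bigger set. -/
theorem tt_jump {β : ℝ} (hβ : 1 ≤ β) (C Md F : Finset (Finset α)) (W D : Finset α) :
    tt β C Md F W D ≤ tt β C Md F (W ∪ D) ∅ := by
  have hβ0 : 0 < β := by linarith
  have h1 : tt β C Md F W D ≤ ∑ A ∈ F.filter (fun A => W ⊆ A ∧ D ⊆ A), wt β C Md (W ∪ D) A := by
    unfold tt wt
    apply Finset.sum_le_sum
    intro A _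
    apply pow_le_pow_of_le_one (inv_nonneg.2 hβ0.le) (inv_le_one_of_one_le₀ hβ)
    apply Finset.card_le_card
    apply Finset.sdiff_subset_sdiff _ (Finset.Subset.refl _)
    exact Finset.sdiff_subset_sdiff (Finset.Subset.refl _) (EI_mono C Finset.subset_union_left)
  refine h1.trans ?_
  unfold tt
  apply Finset.sum_le_sum_of_subset_of_nonneg
  · intro A hA
    simp only [mem_filter] at hA ⊢
    exact ⟨hA.1, Finset.union_subset hA.2.1 hA.2.2, Finset.empty_subset _⟩
  · intro A _ _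
    exact (wt_pos hβ0 C Md (W ∪ D) A).le

theorem brk_subset (F Y : Finset (Finset α)) : brk F Y ⊆ F :=
  Finset.filter_subset _ _

theorem brk_empty (F : Finset (Finset α)) : brk F ∅ = F := by
  simp [brk]

theorem brk_insert (F Y : Finset (Finset α)) (y : Finset α) :
    brk F (insert y Y) = brk (brk F Y) {y} := by
  ext A
  simp only [brk, mem_filter, mem_insert, forall_eq_or_imp, mem_singleton, forall_eq]
  tauto

theorem Par.Good.β_pos {P : Par α} (hP : P.Good) : 0 < P.β := lt_of_lt_of_le one_pos hP.hβ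

theorem cf_nonneg {P : Par α} (hP : P.Good) (Md F : Finset (Finset α)) (W : Finset α) :
    0 ≤ cf P Md F W :=
  mul_nonneg (mul_nonneg (hP.lam_pos _).le (hP.th_pos _).le) (Real.exp_pos _).le

theorem cf_mono_F {P : Par α} (hP : P.Good) (Md : Finset (Finset α))
    {F F' : Finset (Finset α)} (h : F ⊆ F') (W : Finset α) :
    cf P Md F W ≤ cf P Md F' W := by
  unfold cf
  apply mul_le_mul_of_nonneg_left _ (mul_nonneg (hP.lam_pos _).le (hP.th_pos _).le)
  apply Real.exp_le_exp.2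
  exact mul_le_mul_of_nonneg_left (tt_mono_F hP.β_pos P.C Md h W ∅) (hP.th_pos _).le

theorem cf_mono_M {P : Par α} (hP : P.Good) {Md Md' : Finset (Finset α)} (h : Md ⊆ Md')
    (F : Finset (Finset α)) (W : Finset α) :
    cf P Md F W ≤ cf P Md' F W := by
  unfold cf
  apply mul_le_mul_of_nonneg_left _ (mul_nonneg (hP.lam_pos _).le (hP.th_pos _).le)
  apply Real.exp_le_exp.2
  exact mul_le_mul_of_nonneg_left (tt_mono_M hP.hβ P.C h F W ∅) (hP.th_pos _).le

theorem mem_WW {P : Par α} {W : Finset α} :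
    W ∈ WW P ↔ P.Val W ∧ 2 ≤ W.card ∧ W.card < P.q := by
  unfold WW Par.Val
  simp only [mem_filter, mem_biUnion, mem_powerset]

theorem Val_mono {P : Par α} {W W' : Finset α} (h : P.Val W') (hW : W ⊆ W') : P.Val W := by
  obtain ⟨A, hA, h1⟩ := h
  exact ⟨A, hA, hW.trans h1⟩

theorem kap_nonneg {P : Par α} (hP : P.Good) : 0 ≤ kap P := by
  have h1 := hP.hν0
  have h2 := hP.c2_nonneg
  have h3 := hP.c3_nonneg
  have h4 := hP.β_pos
  unfold kap
  positivity

end Pool.Agent.Helper78.CH
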