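import Pool.Agent.Helper78.CH.Caps

set_option autoImplicit false

namespace Pool.Agent.Helper78.CH

open Finset

variable {α : Type*} [DecidableEq α]

/-- The penalty does not increase when the family shrinks. -/
theorem SS_mono {P : Par α} (hP : P.Good) (Md : Finset (Finset α)) {F F' : Finset (Finset α)}
    (h : F ⊆ F') : SS P Md F ≤ SS P Md F' := by
  unfold SS
  apply Finset.sum_le_sum
  intro W _
  apply mul_le_mul_of_nonneg_left _ (hP.lam_pos W).le
  apply Real.exp_le_exp.2
  exact mul_le_mul_of_nonneg_left (tt_mono_F hP.β_pos P.C Md h W ∅) (hP.th_pos W).le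

/-- A current pair `y` is killed: the potential. -/
theorem LL_breaker {P : Par α} (hP : P.Good) {Md F : Finset (Finset α)}
    (h : St P 4 Md F) {y : Finset α} (hy : y ∈ P.C) :
    LL P Md F - VV P Md F y - 4 * P.ν * P.c2 ≤ LL P Md (brk F {y}) := by
  have hexp : ∀ z : ℝ, 0 ≤ z → z ≤ P.ν → Real.exp (-z) ≤ 1 - (1 - P.ν) * z := by
    intro z hz0 hz1
    have h1 : |-z| ≤ 1 := by
      rw [abs_neg, abs_of_nonneg hz0]
      exact hz1.trans hP.hν1
    have h2 := (abs_le.1 (Real.abs_exp_sub_one_sub_id_le h1)).2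
    nlinarith
  have hterm : ∀ W ∈ WW P, P.lam W * Real.exp (P.th W * tt P.β P.C Md (brk F {y}) W ∅) ≤
      P.lam W * Real.exp (P.th W * tt P.β P.C Md F W ∅) -
        (if ¬ y ⊆ W then (1 - P.ν) * (cf P Md F W * tt P.β P.C Md F W y) else 0) := by
    intro W hW
    have hW' := mem_WW.1 hW
    have hb : tt P.β P.C Md (brk F {y}) W ∅ = tt P.β P.C Md F W ∅ - tt P.β P.C Md F W y := by
      rw [tt_brk, Finset.empty_union]
    have hnn : 0 ≤ tt P.β P.C Md F W y := tt_nonneg hP.β_pos P.C Md F W _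
    have hth := hP.th_pos W
    have hlam := hP.lam_pos W
    have he : Real.exp (P.th W * tt P.β P.C Md (brk F {y}) W ∅) =
        Real.exp (P.th W * tt P.β P.C Md F W ∅) *
          Real.exp (-(P.th W * tt P.β P.C Md F W y)) := by
      rw [hb, ← Real.exp_add]
      congr 1
      ring
    have hz0 : 0 ≤ P.th W * tt P.β P.C Md F W y := mul_nonneg hth.le hnn
    have hEp := Real.exp_pos (P.th W * tt P.β P.C Md F W ∅)
    rw [he]
    by_cases hyW : ¬ y ⊆ W
    · rw [if_pos hyW]
      have hz1 : P.th W * tt P.β P.C Md F W y ≤ P.ν := by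
        refine le_trans ?_ (th_tt_le hP h hW'.2.1 hyW)
        apply mul_le_mul_of_nonneg_left _ hth.le
        have h3 := hP.hβ
        nlinarith
      have h4 := hexp _ hz0 hz1
      have h5 : P.lam W * (Real.exp (P.th W * tt P.β P.C Md F W ∅) *
          Real.exp (-(P.th W * tt P.β P.C Md F W y))) ≤
          P.lam W * (Real.exp (P.th W * tt P.β P.C Md F W ∅) *
            (1 - (1 - P.ν) * (P.th W * tt P.β P.C Md F W y))) := by
        apply mul_le_mul_of_nonneg_left _ hlam.le
        exact mul_le_mul_of_nonneg_left h4 hEp.le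
      refine h5.trans (le_of_eq ?_)
      unfold cf
      ring
    · rw [if_neg hyW, sub_zero]
      apply mul_le_mul_of_nonneg_left _ hlam.le
      have h6 : Real.exp (-(P.th W * tt P.β P.C Md F W y)) ≤ 1 := by
        apply Real.exp_le_one_iff.2
        linarith
      nlinarith
  have hSS : SS P Md (brk F {y}) ≤ SS P Md F - (1 - P.ν) * RR P Md F y := by
    unfold SS RR
    refine le_trans (Finset.sum_le_sum hterm) (le_of_eq ?_)
    rw [Finset.sum_sub_distrib, Finset.mul_sum, Finset.sum_filter]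
  have hRR := RR_le hP h hy
  have hT : tt P.β P.C Md (brk F {y}) ∅ ∅ =
      tt P.β P.C Md F ∅ ∅ - tt P.β P.C Md F ∅ y := by
    rw [tt_brk, Finset.empty_union]
  have hν := hP.hν0
  have h7 : P.ν * RR P Md F y ≤ P.ν * (4 * P.c2) := mul_le_mul_of_nonneg_left hRR hν
  unfold LL VV
  rw [hT]
  nlinarith

/-- Any pair `y` is killed: the potential. -/
theorem LL_out {P : Par α} (hP : P.Good) {Md F : Finset (Finset α)}
    (h : St P 4 Md F) {y : Finset α} (hy : y.card = 2) {co : ℝ} (hco0 : 0 ≤ co)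
    (hco : P.Val y → P.cap y ≤ co) :
    LL P Md F - co ≤ LL P Md (brk F {y}) := by
  have h1 : tt P.β P.C Md F ∅ y ≤ co := by
    by_cases hV : P.Val (∅ ∪ y)
    · have h1 := tt_jump hP.hβ P.C Md F ∅ y
      have h2 := tt_le_cap hP h (W := ∅ ∪ y) (by rw [Finset.empty_union, hy])
      rw [Finset.empty_union] at h1 h2 hV
      exact (h1.trans h2).trans (hco hV)
    · rw [tt_eq_zero h hV]
      exact hco0
  have h2 := SS_mono hP Md (brk_subset F {y})
  have h3 : tt P.β P.C Md (brk F {y}) ∅ ∅ =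
      tt P.β P.C Md F ∅ ∅ - tt P.β P.C Md F ∅ y := by
    rw [tt_brk, Finset.empty_union]
  unfold LL
  rw [h3]
  linarith

/-- A pair `y` is killed: the value of another current pair `e`. -/
theorem VV_breaker {P : Par α} (hP : P.Good) {Md F : Finset (Finset α)}
    (h : St P 4 Md F) {y e : Finset α} (hy : y.card = 2)
    (he : e ∈ P.C) (hne : e ≠ y) :
    VV P Md (brk F {y}) e ≤ VV P Md F e + kap P := by
  have hβ0 : 0 < P.β := hP.β_pos
  have hν0 : 0 ≤ P.ν := hP.hν0
  have hterm : ∀ W ∈ (WW P).filter (fun W => ¬ e ⊆ W),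
      cf P Md F W * tt P.β P.C Md F W e -
        cf P Md (brk F {y}) W * tt P.β P.C Md (brk F {y}) W e ≤
        P.ν * (cf P Md F W * tt P.β P.C Md F W e) +
          cf P Md F W * tt P.β P.C Md F W (e ∪ y) := by
    intro W hW
    have hWW : W ∈ WW P := (Finset.mem_filter.1 hW).1
    have hW2 := mem_WW.1 hWW
    have hth : 0 < P.th W := hP.th_pos _
    have hcf0 : 0 ≤ cf P Md F W := cf_nonneg hP Md F W
    have hT0 : 0 ≤ tt P.β P.C Md F W e := tt_nonneg hβ0 P.C Md F W e
    have hU0 : 0 ≤ tt P.β P.C Md F W (e ∪ y) := tt_nonneg hβ0 P.C Md F W _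
    have htt' : tt P.β P.C Md (brk F {y}) W e =
        tt P.β P.C Md F W e - tt P.β P.C Md F W (e ∪ y) := tt_brk P.β P.C Md F W e y
    have hT'0 : 0 ≤ tt P.β P.C Md (brk F {y}) W e := tt_nonneg hβ0 P.C Md _ W e
    by_cases hyW : y ⊆ W
    · have hU : tt P.β P.C Md F W (e ∪ y) = tt P.β P.C Md F W e :=
        tt_union_of_sub P.β P.C Md F e hyW
      rw [htt', hU]
      have h1 : 0 ≤ P.ν * (cf P Md F W * tt P.β P.C Md F W e) :=
        mul_nonneg hν0 (mul_nonneg hcf0 hT0)
      have h2 : cf P Md (brk F {y}) W * (tt P.β P.C Md F W e - tt P.β P.C Md F W e) = 0 := by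
        rw [sub_self, mul_zero]
      linarith
    · have hy1 : tt P.β P.C Md (brk F {y}) W ∅ =
          tt P.β P.C Md F W ∅ - tt P.β P.C Md F W y := by
        have := tt_brk P.β P.C Md F W ∅ y
        rwa [Finset.empty_union] at this
      have hz : P.th W * tt P.β P.C Md F W y ≤ P.ν := by
        refine le_trans ?_ (th_tt_le hP h hW2.2.1 hyW)
        apply mul_le_mul_of_nonneg_left _ hth.le
        have h3 := hP.hβ
        have h4 : 0 ≤ tt P.β P.C Md F W y := tt_nonneg hβ0 P.C Md F W y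
        nlinarith
      have hcf' : (1 - P.ν) * cf P Md F W ≤ cf P Md (brk F {y}) W := by
        have h1 : cf P Md (brk F {y}) W =
            Real.exp (-(P.th W * tt P.β P.C Md F W y)) * cf P Md F W := by
          unfold cf
          rw [hy1]
          have h2 : P.th W * (tt P.β P.C Md F W ∅ - tt P.β P.C Md F W y) =
              -(P.th W * tt P.β P.C Md F W y) + P.th W * tt P.β P.C Md F W ∅ := by ring
          rw [h2, Real.exp_add]
          ring
        rw [h1]
        apply mul_le_mul_of_nonneg_right _ hcf0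
        have h3 := Real.add_one_le_exp (-(P.th W * tt P.β P.C Md F W y))
        linarith
      have h5 : (1 - P.ν) * cf P Md F W * tt P.β P.C Md (brk F {y}) W e ≤
          cf P Md (brk F {y}) W * tt P.β P.C Md (brk F {y}) W e :=
        mul_le_mul_of_nonneg_right hcf' hT'0
      rw [htt'] at h5 ⊢
      have h6 : 0 ≤ P.ν * (cf P Md F W * tt P.β P.C Md F W (e ∪ y)) :=
        mul_nonneg hν0 (mul_nonneg hcf0 hU0)
      nlinarith
  have hsum : RR P Md F e - RR P Md (brk F {y}) e ≤ 4 * P.ν * P.c2 + 4 * P.c3 := by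
    unfold RR
    rw [← Finset.sum_sub_distrib]
    refine (Finset.sum_le_sum hterm).trans ?_
    rw [Finset.sum_add_distrib, ← Finset.mul_sum]
    have h1 : ∑ W ∈ (WW P).filter (fun W => ¬ e ⊆ W), cf P Md F W * tt P.β P.C Md F W e ≤
        4 * tt P.β P.C Md F ∅ e := sum_cf_tt_le hP h.2 e (fun W => ¬ e ⊆ W)
    have h2 : ∑ W ∈ (WW P).filter (fun W => ¬ e ⊆ W),
        cf P Md F W * tt P.β P.C Md F W (e ∪ y) ≤
        4 * tt P.β P.C Md F ∅ (e ∪ y) := sum_cf_tt_le hP h.2 (e ∪ y) (fun W => ¬ e ⊆ W)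
    have h3 : tt P.β P.C Md F ∅ e ≤ P.c2 := T_le hP h he
    have h4 : tt P.β P.C Md F ∅ (e ∪ y) ≤ P.c3 := T2_le hP h (hP.pair e he) hy hne
    have h5 := mul_le_mul_of_nonneg_left
      (h1.trans (mul_le_mul_of_nonneg_left h3 (by norm_num : (0:ℝ) ≤ 4))) hν0
    linarith
  have h1 : tt P.β P.C Md (brk F {y}) ∅ e ≤ tt P.β P.C Md F ∅ e :=
    tt_mono_F hβ0 P.C Md (brk_subset F {y}) ∅ e
  have h2 : P.c3 ≤ P.β * P.c3 := by
    have h4 := hP.c3_nonneg
    nlinarith [hP.hβ]
  unfold VV kap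
  linarith

end Pool.Agent.Helper78.CH
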