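import Pool.Agent.Helper78.CH.Swap

set_option autoImplicit false

namespace Pool.Agent.Helper78.CH

open Finset

variable {α : Type*} [DecidableEq α]

theorem card_eq {P : Par α} (hP : P.Good) {c : ℝ} {Md F : Finset (Finset α)} (h : St P c Md F)
    {A : Finset α} (hA : A ∈ F) : A.card = P.q := hP.card A (h.1 hA)

/-- If `tt W D` is not zero then `W ∪ D` is valid. -/
theorem tt_eq_zero {P : Par α} {c : ℝ} {Md F : Finset (Finset α)} (h : St P c Md F)
    {W D : Finset α} (hW : ¬ P.Val (W ∪ D)) : tt P.β P.C Md F W D = 0 := by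
  unfold tt
  rw [Finset.sum_eq_zero]
  intro A hA
  rw [Finset.mem_filter] at hA
  exact absurd ⟨A, h.1 hA.1, Finset.union_subset hA.2.1 hA.2.2⟩ hW

/-- If all dangers are at most `4`, then all `tt W ∅` are below the caps. -/
theorem tt_le_cap {P : Par α} (hP : P.Good) {Md F : Finset (Finset α)}
    (h : St P 4 Md F) {W : Finset α} (hW : 2 ≤ W.card) :
    tt P.β P.C Md F W ∅ ≤ P.cap W := by
  by_cases hex : ∃ A ∈ F, W ⊆ A
  · obtain ⟨A, hA, hWA⟩ := hex
    have hAq : A.card = P.q := card_eq hP h hA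
    have hVal : P.Val W := ⟨A, h.1 hA, hWA⟩
    have hWq : W.card ≤ P.q := hAq ▸ Finset.card_le_card hWA
    rcases hWq.eq_or_lt with hq | hq
    · have huniq : ∀ A' ∈ F, W ⊆ A' → A' = W := fun A' hA' hWA' =>
        (Finset.eq_of_subset_of_card_le hWA' (by rw [card_eq hP h hA', hq])).symm
      have hWeq : A = W := huniq A hA hWA
      have h1 : tt P.β P.C Md F W ∅ ≤ 1 := by
        unfold tt
        have hsub : F.filter (fun A => W ⊆ A ∧ ∅ ⊆ A) ⊆ {W} := by
          intro A' hA'
          rw [Finset.mem_filter] at hA'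
          rw [Finset.mem_singleton]
          exact huniq A' hA'.1 hA'.2.1
        calc ∑ A ∈ F.filter (fun A => W ⊆ A ∧ ∅ ⊆ A), wt P.β P.C Md W A
            ≤ ∑ A ∈ ({W} : Finset (Finset α)), wt P.β P.C Md W A :=
              Finset.sum_le_sum_of_subset_of_nonneg hsub
                fun A _ _ => (wt_pos hP.β_pos P.C Md W A).le
          _ = wt P.β P.C Md W W := Finset.sum_singleton _ _
          _ ≤ 1 := wt_le_one hP.hβ P.C Md W W
      refine h1.trans ?_
      rw [← hWeq]
      exact hP.cap_q A (h.1 hA)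
    · have hmem : W ∈ (WW P).filter (fun W => W ⊆ A) :=
        Finset.mem_filter.2 ⟨mem_WW.2 ⟨hVal, hW, hq⟩, hWA⟩
      have hOm := h.2 A hA
      have hterm : cf P Md F W * P.β ^ (EI P.C W \ Md).card ≤ Om P Md F A := by
        unfold Om
        exact Finset.single_le_sum (f := fun W => cf P Md F W * P.β ^ (EI P.C W \ Md).card)
          (fun W' _ => mul_nonneg (cf_nonneg hP Md F W') (pow_nonneg hP.β_pos.le _)) hmem
      have hβ1 : (1 : ℝ) ≤ P.β ^ (EI P.C W \ Md).card := one_le_pow₀ hP.hβ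
      have hcf : cf P Md F W ≤ 4 := by
        calc cf P Md F W = cf P Md F W * 1 := (mul_one _).symm
          _ ≤ cf P Md F W * P.β ^ (EI P.C W \ Md).card :=
            mul_le_mul_of_nonneg_left hβ1 (cf_nonneg hP Md F W)
          _ ≤ 4 := hterm.trans hOm
      rw [← hP.cap_exp W hVal hW hq] at hcf
      unfold cf at hcf
      have hlt : 0 < P.lam W * P.th W := mul_pos (hP.lam_pos _) (hP.th_pos _)
      have h2 := le_of_mul_le_mul_left hcf hlt
      have h3 := Real.exp_le_exp.1 h2
      exact le_of_mul_le_mul_left h3 (hP.th_pos _)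
  · have h0 : tt P.β P.C Md F W ∅ = 0 := by
      unfold tt
      rw [Finset.sum_eq_zero]
      intro A hA
      rw [Finset.mem_filter] at hA
      exact absurd ⟨A, hA.1, hA.2.1⟩ hex
    rw [h0]
    exact hP.cap_nonneg _

/-- Jump: a pair `e` not inside `W` (second order bound). -/
theorem th_tt_le {P : Par α} (hP : P.Good) {Md F : Finset (Finset α)}
    (h : St P 4 Md F) {W : Finset α} (hW : 2 ≤ W.card) {e : Finset α} (heW : ¬ e ⊆ W) :
    P.th W * (P.β * tt P.β P.C Md F W e) ≤ P.ν := by
  by_cases hV : P.Val (W ∪ e)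
  · have hss : W ⊂ W ∪ e :=
      ⟨Finset.subset_union_left, fun hh => heW (Finset.subset_union_right.trans hh)⟩
    refine le_trans ?_ (hP.nu_th W (W ∪ e) hV hss hW)
    apply mul_le_mul_of_nonneg_left _ (hP.th_pos W).le
    apply mul_le_mul_of_nonneg_left _ hP.β_pos.le
    exact (tt_jump hP.hβ P.C Md F W e).trans
      (tt_le_cap hP h (hW.trans (Finset.card_le_card Finset.subset_union_left)))
  · rw [tt_eq_zero h hV, mul_zero, mul_zero]
    exact hP.hν0

/-- The value of a current pair. -/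
theorem T_le {P : Par α} (hP : P.Good) {Md F : Finset (Finset α)}
    (h : St P 4 Md F) {e : Finset α} (he : e ∈ P.C) : tt P.β P.C Md F ∅ e ≤ P.c2 := by
  by_cases hV : P.Val (∅ ∪ e)
  · have h1 := tt_jump hP.hβ P.C Md F ∅ e
    have h2 := tt_le_cap hP h (W := ∅ ∪ e) (by rw [Finset.empty_union, hP.pair e he])
    rw [Finset.empty_union] at h1 h2 hV
    exact (h1.trans h2).trans (hP.c2_le e he hV)
  · rw [tt_eq_zero h hV]
    exact hP.c2_nonneg

/-- Two different pairs. -/
theorem T2_le {P : Par α} (hP : P.Good) {Md F : Finset (Finset α)}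
    (h : St P 4 Md F) {e y : Finset α} (he : e.card = 2) (hy : y.card = 2)
    (hne : e ≠ y) : tt P.β P.C Md F ∅ (e ∪ y) ≤ P.c3 := by
  have hcard : 3 ≤ (e ∪ y).card := by
    by_contra hlt
    push Not at hlt
    have h1 : e = e ∪ y :=
      Finset.eq_of_subset_of_card_le Finset.subset_union_left (by omega)
    have h2 : y ⊆ e := by
      rw [h1]
      exact Finset.subset_union_right
    exact hne (Finset.eq_of_subset_of_card_le h2 (by omega)).symm
  by_cases hV : P.Val (∅ ∪ (e ∪ y))
  · have h1 := tt_jump hP.hβ P.C Md F ∅ (e ∪ y)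
    have h2 := tt_le_cap hP h (W := ∅ ∪ (e ∪ y)) (by rw [Finset.empty_union]; omega)
    rw [Finset.empty_union] at h1 h2 hV
    exact (h1.trans h2).trans (hP.c3_le _ hV hcard)
  · rw [tt_eq_zero h hV]
    exact hP.c3_nonneg

theorem RR_nonneg {P : Par α} (hP : P.Good) (Md F : Finset (Finset α)) (e : Finset α) :
    0 ≤ RR P Md F e :=
  Finset.sum_nonneg fun W _ => mul_nonneg (cf_nonneg hP Md F W) (tt_nonneg hP.β_pos P.C Md F W _)

theorem RR_le {P : Par α} (hP : P.Good) {Md F : Finset (Finset α)}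
    (h : St P 4 Md F) {e : Finset α} (he : e ∈ P.C) : RR P Md F e ≤ 4 * P.c2 := by
  unfold RR
  refine (sum_cf_tt_le hP h.2 e (fun W => ¬ e ⊆ W)).trans ?_
  exact mul_le_mul_of_nonneg_left (T_le hP h he) (by norm_num)

/-- Killing pairs does not increase the dangers. -/
theorem St_brk {P : Par α} (hP : P.Good) {c : ℝ} {Md F : Finset (Finset α)}
    (h : St P c Md F) (Y : Finset (Finset α)) : St P c Md (brk F Y) := by
  refine ⟨(brk_subset F Y).trans h.1, fun A hA => ?_⟩
  refine le_trans ?_ (h.2 A (brk_subset F Y hA))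
  unfold Om
  apply Finset.sum_le_sum
  intro W _
  exact mul_le_mul_of_nonneg_right (cf_mono_F hP Md (brk_subset F Y) W)
    (pow_nonneg hP.β_pos.le _)

end Pool.Agent.Helper78.CH
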