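import Mathlib
import Pool.Agent.Helper25.CliqueGame.Final

/-!
# The biased clique game, lower bound in the mixture region: definitions of the phase lemma

Memo: `memo_MP_d32cb0_co_helper78_PartII_v2.md` (team store), section 1.

`α` is the type of atoms (an atom is a single vertex or a finished block), a pair is a set of two
atoms.  `C` is the set of the current pairs, `Md` the set of the pairs declared by Maker, `F` the
family of the structures (sets of `q` atoms) which Maker still wants.
-/

set_option autoImplicit false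

namespace Pool.Agent.Helper78.CH

open Finset

variable {α : Type*} [DecidableEq α]

/-- The current pairs inside `W`. -/
def EI (C : Finset (Finset α)) (W : Finset α) : Finset (Finset α) := C.filter (fun e => e ⊆ W)

/-- The weight of the structure `A` seen from `W`. -/
noncomputable def wt (β : ℝ) (C Md : Finset (Finset α)) (W A : Finset α) : ℝ :=
  β⁻¹ ^ ((EI C A \ EI C W) \ Md).card

/-- The sum of the weights over the structures which contain `W` and `D`. -/
noncomputable def tt (β : ℝ) (C Md F : Finset (Finset α)) (W D : Finset α) : ℝ :=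
  ∑ A ∈ F.filter (fun A => W ⊆ A ∧ D ⊆ A), wt β C Md W A

/-- The parameters of the potential. -/
structure Par (α : Type*) where
  /-- size of the structures -/
  q : ℕ
  /-- `1 + b / r` -/
  β : ℝ
  /-- error parameter -/
  ν : ℝ
  /-- exponents -/
  th : Finset α → ℝ
  /-- coefficients -/
  lam : Finset α → ℝ
  /-- caps -/
  cap : Finset α → ℝ
  /-- the current pairs -/
  C : Finset (Finset α)
  /-- the initial family -/
  F0 : Finset (Finset α)
  /-- bound for the caps of the current pairs -/
  c2 : ℝ
  /-- bound for the caps of the sets with at least three atoms -/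
  c3 : ℝ

/-- Valid sets. -/
def Par.Val (P : Par α) (W : Finset α) : Prop := ∃ A ∈ P.F0, W ⊆ A

/-- The valid sets with at least two and less than `q` atoms. -/
def WW (P : Par α) : Finset (Finset α) :=
  (P.F0.biUnion powerset).filter (fun W => 2 ≤ W.card ∧ W.card < P.q)

/-- The conditions on the parameters which are used in one step of the game. -/
structure Par.Good (P : Par α) : Prop where
  hβ : 1 ≤ P.β
  hν0 : 0 ≤ P.ν
  hν1 : P.ν ≤ 1
  pair : ∀ e ∈ P.C, e.card = 2
  card : ∀ A ∈ P.F0, A.card = P.q
  th_pos : ∀ W, 0 < P.th W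
  lam_pos : ∀ W, 0 < P.lam W
  th_le : ∀ W, P.Val W → 2 ≤ W.card → W.card < P.q → P.th W ≤ 1
  cap_nonneg : ∀ W, 0 ≤ P.cap W
  cap_anti : ∀ W W', P.Val W' → W ⊆ W' → 2 ≤ W.card → P.cap W' ≤ P.cap W
  cap_q : ∀ A ∈ P.F0, 1 ≤ P.cap A
  cap_exp : ∀ W, P.Val W → 2 ≤ W.card → W.card < P.q →
    P.lam W * P.th W * Real.exp (P.th W * P.cap W) = 4
  nu_th : ∀ W W', P.Val W' → W ⊂ W' → 2 ≤ W.card → P.th W * (P.β * P.cap W') ≤ P.ν
  c2_nonneg : 0 ≤ P.c2
  c3_nonneg : 0 ≤ P.c3
  c2_le : ∀ e ∈ P.C, P.Val e → P.cap e ≤ P.c2
  c3_le : ∀ W, P.Val W → 3 ≤ W.card → P.cap W ≤ P.c3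

/-- The coefficient of the set `W`. -/
noncomputable def cf (P : Par α) (Md F : Finset (Finset α)) (W : Finset α) : ℝ :=
  P.lam W * P.th W * Real.exp (P.th W * tt P.β P.C Md F W ∅)

/-- The danger of the structure `A`. -/
noncomputable def Om (P : Par α) (Md F : Finset (Finset α)) (A : Finset α) : ℝ :=
  ∑ W ∈ (WW P).filter (fun W => W ⊆ A), cf P Md F W * P.β ^ (EI P.C W \ Md).card

/-- The first order term of the penalty at the pair `e`. -/
noncomputable def RR (P : Par α) (Md F : Finset (Finset α)) (e : Finset α) : ℝ :=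
  ∑ W ∈ (WW P).filter (fun W => ¬ e ⊆ W), cf P Md F W * tt P.β P.C Md F W e

/-- The value of the pair `e`. -/
noncomputable def VV (P : Par α) (Md F : Finset (Finset α)) (e : Finset α) : ℝ :=
  tt P.β P.C Md F ∅ e - RR P Md F e

/-- The penalty. -/
noncomputable def SS (P : Par α) (Md F : Finset (Finset α)) : ℝ :=
  ∑ W ∈ WW P, P.lam W * Real.exp (P.th W * tt P.β P.C Md F W ∅)

/-- The potential. -/
noncomputable def LL (P : Par α) (Md F : Finset (Finset α)) : ℝ :=
  tt P.β P.C Md F ∅ ∅ - SS P Md F

/-- The family after all pairs of `Y` were killed. -/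
def brk (F Y : Finset (Finset α)) : Finset (Finset α) :=
  F.filter (fun A => ∀ e ∈ Y, ¬ e ⊆ A)

/-- All members of the family are in the initial family and have danger at most `c`. -/
def St (P : Par α) (c : ℝ) (Md F : Finset (Finset α)) : Prop :=
  F ⊆ P.F0 ∧ ∀ A ∈ F, Om P Md F A ≤ c

/-- The bound for the change of the value of a pair in one step. -/
noncomputable def kap (P : Par α) : ℝ := 4 * P.ν * P.c2 + 4 * P.β * P.c3

/-- The loss in one turn (`co`: bound for the value of the outside pairs which can be killed). -/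
noncomputable def lossT (P : Par α) (r b : ℕ) (co : ℝ) : ℝ :=
  4 * (r * P.β + b) * P.ν * P.c2 + (b + 1) * (r + b) * kap P + b * co

/-- The live undecided current pairs. -/
def UU (P : Par α) (Md F : Finset (Finset α)) : Finset (Finset α) :=
  (P.C \ Md).filter (fun e => ∃ A ∈ F, e ⊆ A)

end Pool.Agent.Helper78.CH
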