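import Pool.Agent.Helper78.CH.Basic

set_option autoImplicit false

namespace Pool.Agent.Helper78.CH

open Finset

variable {α : Type*} [DecidableEq α]

/-- Removing one structure of danger at least `2` from the family does not decrease the potential. -/
theorem LL_erase {P : Par α} (hP : P.Good) (Md : Finset (Finset α))
    {F : Finset (Finset α)} (hF : F ⊆ P.F0) {A : Finset α} (hA : A ∈ F) (h : 2 ≤ Om P Md F A) :
    LL P Md F ≤ LL P Md (F.erase A) := by
  have hβ0 : 0 < P.β := hP.β_pos
  have key : ∀ x : ℝ, 0 ≤ x → x ≤ 1 → x / 2 ≤ 1 - Real.exp (-x) := by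
    intro x h0 h1
    have h2 : Real.exp (-x) ≤ 1 / (1 + x) := by
      rw [Real.exp_neg, ← one_div]
      apply one_div_le_one_div_of_le (by linarith)
      linarith [Real.add_one_le_exp x]
    have h3 : x / 2 ≤ 1 - 1 / (1 + x) := by
      have h4 : 1 - 1 / (1 + x) = x / (1 + x) := by
        have : (1 + x) ≠ 0 := by linarith
        field_simp
        ring
      rw [h4]
      apply div_le_div_of_nonneg_left h0 (by linarith) (by linarith)
    linarith
  have herase : ∀ W : Finset α, tt P.β P.C Md F W ∅ =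
      tt P.β P.C Md (F.erase A) W ∅ + if W ⊆ A then wt P.β P.C Md W A else 0 := by
    intro W
    unfold tt
    have hfe : (F.erase A).filter (fun B => W ⊆ B ∧ (∅ : Finset α) ⊆ B) =
        (F.filter (fun B => W ⊆ B ∧ (∅ : Finset α) ⊆ B)).erase A := by
      ext B
      simp only [mem_filter, mem_erase]
      tauto
    rw [hfe]
    by_cases hWA : W ⊆ A
    · rw [if_pos hWA]
      have hmem : A ∈ F.filter (fun B => W ⊆ B ∧ (∅ : Finset α) ⊆ B) := by
        simp only [mem_filter]
        exact ⟨hA, hWA, Finset.empty_subset _⟩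
      rw [Finset.sum_erase_add _ _ hmem]
    · rw [if_neg hWA, add_zero]
      congr 1
      rw [Finset.erase_eq_of_notMem]
      simp only [mem_filter]
      exact fun h' => hWA h'.2.1
  have hterm : ∀ W ∈ WW P,
      P.lam W * Real.exp (P.th W * tt P.β P.C Md (F.erase A) W ∅) +
        (if W ⊆ A then cf P Md F W * P.β ^ (EI P.C W \ Md).card * (wt P.β P.C Md ∅ A / 2) else 0)
      ≤ P.lam W * Real.exp (P.th W * tt P.β P.C Md F W ∅) := by
    intro W hW
    have hW' := mem_WW.1 hW
    by_cases hWA : W ⊆ A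
    · rw [if_pos hWA]
      have h1 := herase W
      rw [if_pos hWA] at h1
      set d := wt P.β P.C Md W A with hd
      have hd0 : 0 < d := wt_pos hβ0 P.C Md W A
      have hd1 : d ≤ 1 := wt_le_one hP.hβ P.C Md W A
      have hth0 := hP.th_pos W
      have hth1 := hP.th_le W hW'.1 hW'.2.1 hW'.2.2
      have hx0 : 0 ≤ P.th W * d := (mul_pos hth0 hd0).le
      have hx1 : P.th W * d ≤ 1 := by nlinarith
      have h2 := key _ hx0 hx1
      have h3 : P.th W * tt P.β P.C Md (F.erase A) W ∅ =
          P.th W * tt P.β P.C Md F W ∅ + -(P.th W * d) := by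
        rw [h1]; ring
      rw [h3, Real.exp_add]
      have h4 : wt P.β P.C Md ∅ A * P.β ^ (EI P.C W \ Md).card = d :=
        (wt_eq hβ0 hP.pair Md hWA).symm
      have h5 : cf P Md F W * P.β ^ (EI P.C W \ Md).card * (wt P.β P.C Md ∅ A / 2) =
          P.lam W * Real.exp (P.th W * tt P.β P.C Md F W ∅) * (P.th W * d / 2) := by
        unfold cf
        rw [← h4]
        ring
      rw [h5]
      have h6 : 0 < P.lam W * Real.exp (P.th W * tt P.β P.C Md F W ∅) :=
        mul_pos (hP.lam_pos _) (Real.exp_pos _)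
      nlinarith [mul_le_mul_of_nonneg_left h2 h6.le]
    · rw [if_neg hWA, add_zero]
      have h1 := herase W
      rw [if_neg hWA, add_zero] at h1
      rw [h1]
  have hSS : SS P Md (F.erase A) + Om P Md F A * (wt P.β P.C Md ∅ A / 2) ≤ SS P Md F := by
    unfold SS Om
    rw [Finset.sum_mul, Finset.sum_filter, ← Finset.sum_add_distrib]
    exact Finset.sum_le_sum hterm
  have h0 := herase ∅
  rw [if_pos (Finset.empty_subset A)] at h0
  have hw0 : 0 < wt P.β P.C Md ∅ A := wt_pos hβ0 P.C Md ∅ A
  unfold LL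
  nlinarith

/-- Pruning. -/
theorem prune {P : Par α} (hP : P.Good) (Md : Finset (Finset α))
    {F : Finset (Finset α)} (hF : F ⊆ P.F0) :
    ∃ F' ⊆ F, LL P Md F ≤ LL P Md F' ∧ St P 2 Md F' := by
  induction hn : F.card using Nat.strong_induction_on generalizing F with
  | _ n ih =>
    subst hn
    by_cases hex : ∃ A ∈ F, 2 < Om P Md F A
    · obtain ⟨A, hA, h2⟩ := hex
      obtain ⟨F', hF', h1, h3⟩ := ih (F.erase A).card (Finset.card_erase_lt_of_mem hA)
        ((Finset.erase_subset _ _).trans hF) rfl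
      exact ⟨F', hF'.trans (Finset.erase_subset _ _), (LL_erase hP Md hF hA h2.le).trans h1, h3⟩
    · push Not at hex
      exact ⟨F, Finset.Subset.refl _, le_rfl, hF, hex⟩

end Pool.Agent.Helper78.CH
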