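import Pool.Agent.Helper78.CH.Turn
import Pool.Agent.Helper78.CH.Prune

set_option autoImplicit false

namespace Pool.Agent.Helper78.CH

open Finset Pool.Agent.Helper25.CliqueGame

variable {α : Type*} [DecidableEq α] {N : ℕ}

/-- No pair of the structure `A` has an edge of Breaker (`G e`: the real edges of the pair `e`). -/
def alive (G : Finset α → Finset (Sym2 (Fin N))) (B : Finset (Sym2 (Fin N))) (A : Finset α) : Prop :=
  ∀ e ⊆ A, e.card = 2 → Disjoint (G e) B

theorem lossT_nonneg {P : Par α} (hP : P.Good) (r b : ℕ) {co : ℝ} (hco0 : 0 ≤ co) :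
    0 ≤ lossT P r b co := by
  have h1 := hP.hν0
  have h2 := hP.c2_nonneg
  have h3 := kap_nonneg hP
  have h4 := hP.β_pos
  unfold lossT
  positivity

/-- When all pairs are decided, the sums are numbers of structures. -/
theorem tt_of_decided {P : Par α} {Md F : Finset (Finset α)} (hU : UU P Md F = ∅) (W : Finset α) :
    tt P.β P.C Md F W ∅ = ((F.filter (fun A => W ⊆ A)).card : ℝ) := by
  unfold tt
  have h1 : F.filter (fun A => W ⊆ A ∧ ∅ ⊆ A) = F.filter (fun A => W ⊆ A) := by
    ext A
    simp
  rw [h1, Finset.card_eq_sum_ones, Nat.cast_sum]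
  refine Finset.sum_congr rfl fun A hA => ?_
  unfold wt
  have h2 : (EI P.C A \ EI P.C W) \ Md = ∅ := by
    rw [Finset.eq_empty_iff_forall_notMem]
    intro e he
    simp only [mem_sdiff, mem_EI] at he
    have : e ∈ UU P Md F :=
      Finset.mem_filter.2 ⟨Finset.mem_sdiff.2 ⟨he.1.1.1, he.2⟩, A, (Finset.mem_filter.1 hA).1,
        he.1.1.2⟩
    rw [hU] at this
    exact absurd this (Finset.notMem_empty _)
  rw [h2]
  simp

/-- The game during one phase. -/
theorem phase_reach {P : Par α} (hP : P.Good) {m b r : ℕ} (hr : 1 ≤ r)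
    (hβ : P.β = 1 + (b : ℝ) / r) (hν : 2 * Real.exp (r * P.ν) ≤ 4)
    (G : Finset α → Finset (Sym2 (Fin N)))
    (hG1 : ∀ e ∈ P.C, P.Val e → G e ⊆ edges N ∧ r * (G e).card ≤ m)
    (hG2 : ∀ e e', P.Val e → P.Val e' → e.card = 2 → e'.card = 2 → e ≠ e' →
      Disjoint (G e) (G e'))
    {co : ℝ} (hco0 : 0 ≤ co) (M0 : Finset (Sym2 (Fin N)))
    (hco : ∀ e, P.Val e → e.card = 2 → e ∉ P.C → P.cap e ≤ co ∨ G e ⊆ M0) :
    ∀ (n : ℕ) (M B : Finset (Sym2 (Fin N))) (Md F : Finset (Finset α)),
      Disjoint M B → M0 ⊆ M → F ⊆ P.F0 → (UU P Md F).card ≤ n → (∀ A ∈ F, alive G B A) →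
      (∀ e ∈ Md, G e ⊆ M) →
      Reach (edges N) m b (fun M' B' => Disjoint M' B' ∧ M ⊆ M' ∧ ∃ F' ⊆ F,
        (∀ A ∈ F', alive G B' A) ∧ (∀ A ∈ F', ∀ e ∈ P.C, e ⊆ A → G e ⊆ M') ∧
        LL P Md F - n * lossT P r b co ≤ (F'.card : ℝ) ∧
        ∀ W : Finset α, 2 ≤ W.card → ((F'.filter (fun A => W ⊆ A)).card : ℝ) ≤ P.cap W) M B := by
  intro n
  induction n with
  | zero =>
    intro M B Md F hMB _ hF hU hal hMd
    have hloss := lossT_nonneg hP r b hco0
    obtain ⟨F1, hF1, hLL, hSt⟩ := prune hP Md hF
    have hU1 : UU P Md F1 = ∅ := by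
      rw [← Finset.card_eq_zero]
      refine Nat.le_zero.1 (le_trans (Finset.card_le_card ?_) hU)
      intro e he
      rw [UU, Finset.mem_filter] at he ⊢
      obtain ⟨h1, A, hA, h2⟩ := he
      exact ⟨h1, A, hF1 hA, h2⟩
    apply Reach.here
    refine ⟨hMB, Finset.Subset.refl _, F1, hF1, fun A hA => hal A (hF1 hA), ?_, ?_, ?_⟩
    · intro A hA e he heA
      apply hMd
      by_contra hcon
      have : e ∈ UU P Md F1 := Finset.mem_filter.2 ⟨Finset.mem_sdiff.2 ⟨he, hcon⟩, A, hA, heA⟩
      rw [hU1] at this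
      exact absurd this (Finset.notMem_empty _)
    · have h1 := tt_of_decided hU1 ∅
      have h2 : F1.filter (fun A => (∅ : Finset α) ⊆ A) = F1 := by simp
      rw [h2] at h1
      have h3 : 0 ≤ SS P Md F1 := by
        unfold SS
        exact Finset.sum_nonneg fun W _ => mul_nonneg (hP.lam_pos _).le (Real.exp_pos _).le
      have h4 : LL P Md F1 = tt P.β P.C Md F1 ∅ ∅ - SS P Md F1 := rfl
      push_cast
      linarith
    · intro W hW
      rw [← tt_of_decided hU1 W]
      exact tt_le_cap hP ⟨hSt.1, fun A hA => (hSt.2 A hA).trans (by norm_num)⟩ hW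
  | succ n ih =>
    intro M B Md F hMB hM0 hF hU hal hMd
    have hloss := lossT_nonneg hP r b hco0
    obtain ⟨F1, hF1, hLL, hSt⟩ := prune hP Md hF
    have hU1 : (UU P Md F1).card ≤ n + 1 := by
      refine le_trans (Finset.card_le_card ?_) hU
      intro e he
      rw [UU, Finset.mem_filter] at he ⊢
      obtain ⟨h1, A, hA, h2⟩ := he
      exact ⟨h1, A, hF1 hA, h2⟩
    by_cases hUe : UU P Md F1 = ∅
    · apply Reach.here
      refine ⟨hMB, Finset.Subset.refl _, F1, hF1, fun A hA => hal A (hF1 hA), ?_, ?_, ?_⟩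
      · intro A hA e he heA
        apply hMd
        by_contra hcon
        have : e ∈ UU P Md F1 := Finset.mem_filter.2 ⟨Finset.mem_sdiff.2 ⟨he, hcon⟩, A, hA, heA⟩
        rw [hUe] at this
        exact absurd this (Finset.notMem_empty _)
      · have h1 := tt_of_decided hUe ∅
        have h2 : F1.filter (fun A => (∅ : Finset α) ⊆ A) = F1 := by simp
        rw [h2] at h1
        have h3 : 0 ≤ SS P Md F1 := by
          unfold SS
          exact Finset.sum_nonneg fun W _ => mul_nonneg (hP.lam_pos _).le (Real.exp_pos _).le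
        have h4 : LL P Md F1 = tt P.β P.C Md F1 ∅ ∅ - SS P Md F1 := rfl
        have h5 : 0 ≤ ((n + 1 : ℕ) : ℝ) * lossT P r b co := by positivity
        linarith
      · intro W hW
        rw [← tt_of_decided hUe W]
        exact tt_le_cap hP ⟨hSt.1, fun A hA => (hSt.2 A hA).trans (by norm_num)⟩ hW
    · obtain ⟨X, K, hXU, hKU, hXr, hne, hfull⟩ := full_turn hP (b := b) hr hβ hν hSt hco0
      have hUne : (UU P Md F1).Nonempty := Finset.nonempty_iff_ne_empty.2 hUe
      have hlive : ∀ e ∈ UU P Md F1, e ∈ P.C ∧ e ∉ Md ∧ ∃ A ∈ F1, e ⊆ A := by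
        intro e he
        rw [UU, Finset.mem_filter, Finset.mem_sdiff] at he
        exact ⟨he.1.1, he.1.2, he.2⟩
      have hVal : ∀ e, (∃ A ∈ F1, e ⊆ A) → P.Val e := by
        rintro e ⟨A, hA, h1⟩
        exact ⟨A, hSt.1 hA, h1⟩
      set T := X.biUnion G with hT
      have hTe : T ⊆ edges N := by
        intro a ha
        obtain ⟨e, he, hae⟩ := Finset.mem_biUnion.1 ha
        obtain ⟨h1, _, h3⟩ := hlive e (hXU he)
        exact (hG1 e h1 (hVal e h3)).1 hae
      have hTB : Disjoint T B := by
        rw [hT, Finset.disjoint_biUnion_left]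
        intro e he
        obtain ⟨h1, _, A, hA, h3⟩ := hlive e (hXU he)
        exact hal A (hF1 hA) e h3 (hP.pair e h1)
      have hTm : T.card ≤ m := by
        have h1 : T.card ≤ ∑ e ∈ X, (G e).card := Finset.card_biUnion_le
        have h2 : r * ∑ e ∈ X, (G e).card ≤ X.card * m := by
          rw [Finset.mul_sum, ← smul_eq_mul, ← Finset.sum_const]
          apply Finset.sum_le_sum
          intro e he
          obtain ⟨h1, _, h3⟩ := hlive e (hXU he)
          exact (hG1 e h1 (hVal e h3)).2
        have h3 : X.card * m ≤ r * m := Nat.mul_le_mul_right m hXr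
        have h4 : r * T.card ≤ r * m := (Nat.mul_le_mul_left r h1).trans (h2.trans h3)
        exact Nat.le_of_mul_le_mul_left h4 hr
      apply Reach.turn_core T hTe hTB hTm hMB
      intro M' Y hM' hYe hYb hdisj
      classical
      set F2 := brk F1 K with hF2
      set Y1 : Finset (Finset α) := (F2.biUnion (fun A => A.powerset)).filter
        (fun e => e.card = 2 ∧ ¬ Disjoint (G e) Y) with hY1
      have hY1mem : ∀ e, e ∈ Y1 ↔ (∃ A ∈ F2, e ⊆ A) ∧ e.card = 2 ∧ ¬ Disjoint (G e) Y := by
        intro e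
        simp only [hY1, mem_filter, mem_biUnion, mem_powerset]
      have hF21 : F2 ⊆ F1 := brk_subset F1 K
      have hMM' : M ⊆ M' := Finset.subset_union_left.trans hM'
      have hTM' : T ⊆ M' := Finset.subset_union_right.trans hM'
      have hM'Y : Disjoint M' Y := Finset.disjoint_of_subset_right Finset.subset_union_right hdisj
      have hnotM : ∀ e ∈ Y1, ¬ G e ⊆ M' := by
        intro e he hcon
        exact ((hY1mem e).1 he).2.2 (Finset.disjoint_of_subset_left hcon hM'Y)
      have hY1val : ∀ e ∈ Y1, P.Val e := by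
        intro e he
        obtain ⟨A, hA, h1⟩ := ((hY1mem e).1 he).1
        exact hVal e ⟨A, hF21 hA, h1⟩
      have hY1card : Y1.card ≤ b := by
        refine le_trans ?_ hYb
        have hch : ∀ e ∈ Y1, ∃ a, a ∈ G e ∧ a ∈ Y := by
          intro e he
          have := ((hY1mem e).1 he).2.2
          rw [Finset.not_disjoint_iff] at this
          exact this
        rcases Y1.eq_empty_or_nonempty with h0 | ⟨e0, he0⟩
        · rw [h0]
          simp
        obtain ⟨a0, _⟩ := hch e0 he0
        haveI : Nonempty (Sym2 (Fin N)) := ⟨a0⟩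
        choose! f hf using hch
        apply Finset.card_le_card_of_injOn f (fun e he => (hf e he).2)
        intro e he e' he' heq
        by_contra hcon
        have h1 := hG2 e e' (hY1val e he) (hY1val e' he') ((hY1mem e).1 he).2.1
          ((hY1mem e').1 he').2.1 hcon
        refine Finset.disjoint_left.1 h1 (hf e he).1 ?_
        rw [heq]
        exact (hf e' he').1
      have hnew := hfull Y1 hY1card (fun e he => ((hY1mem e).1 he).2.1) (by
        intro e he heC
        obtain ⟨A, hA, heA⟩ := ((hY1mem e).1 he).1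
        rw [Finset.mem_sdiff, Finset.mem_union, not_or]
        refine ⟨?_, ?_, ?_⟩
        · rw [UU, Finset.mem_filter, Finset.mem_sdiff]
          refine ⟨⟨heC, fun hMd' => hnotM e he ((hMd e hMd').trans hMM')⟩, A, hF21 hA, heA⟩
        · intro heX
          exact hnotM e he ((Finset.subset_biUnion_of_mem G heX).trans hTM')
        · intro heK
          rw [hF2, brk, Finset.mem_filter] at hA
          exact hA.2 e heK heA) (by
        intro e he heC hV
        rcases hco e hV ((hY1mem e).1 he).2.1 heC with h1 | h1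
        · exact h1
        · exact absurd (h1.trans (hM0.trans hMM')) (hnotM e he))
      set F3 := brk F2 Y1 with hF3
      have hF32 : F3 ⊆ F2 := brk_subset F2 Y1
      have hUless : (UU P (Md ∪ X) F3).card ≤ n := by
        have hsub : UU P (Md ∪ X) F3 ⊆ UU P Md F1 \ (X ∪ K) := by
          intro e he
          rw [UU, Finset.mem_filter, Finset.mem_sdiff, Finset.mem_union, not_or] at he
          obtain ⟨⟨heC, heM, heX⟩, A, hA, heA⟩ := he
          have hA2 := hF32 hA
          rw [Finset.mem_sdiff, Finset.mem_union, not_or]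
          refine ⟨?_, heX, ?_⟩
          · rw [UU, Finset.mem_filter, Finset.mem_sdiff]
            exact ⟨⟨heC, heM⟩, A, hF21 hA2, heA⟩
          · intro heK
            rw [hF2, brk, Finset.mem_filter] at hA2
            exact hA2.2 e heK heA
        have h1 := Finset.card_le_card hsub
        rw [Finset.card_sdiff_of_subset (Finset.union_subset hXU hKU)] at h1
        have h2 := Finset.card_pos.2 (hne hUne)
        omega
      have hF3F : F3 ⊆ F := hF32.trans (hF21.trans hF1)
      have hrec := ih M' (B ∪ Y) (Md ∪ X) F3 hdisj (hM0.trans hMM') (hF3F.trans hF) hUless (by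
        intro A hA e heA he2
        rw [Finset.disjoint_union_right]
        refine ⟨hal A (hF3F hA) e heA he2, ?_⟩
        by_contra hcon
        have hA' := hA
        rw [hF3, brk, Finset.mem_filter] at hA'
        exact hA'.2 e ((hY1mem e).2 ⟨⟨A, hA'.1, heA⟩, he2, hcon⟩) heA) (by
        intro e he
        rcases Finset.mem_union.1 he with h1 | h1
        · exact (hMd e h1).trans hMM'
        · exact (Finset.subset_biUnion_of_mem G h1).trans hTM')
      refine Reach.bind hrec ?_
      rintro M'' B'' ⟨h1, h2, F', hF', h3, h4, h5, h6⟩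
      apply Reach.here
      refine ⟨h1, hMM'.trans h2, F', hF'.trans hF3F, h3, h4, ?_, h6⟩
      push_cast
      linarith

end Pool.Agent.Helper78.CH
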