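import Pool.Agent.Helper78.CH.Game

set_option autoImplicit false

namespace Pool.Agent.Helper78.CH

open Finset Pool.Agent.Helper25.CliqueGame

variable {α : Type*} [DecidableEq α] {N : ℕ}

/-- The loss in one turn. -/
noncomputable def lossC (r b : ℕ) (β ν c2 c3 co : ℝ) : ℝ :=
  4 * (r * β + b) * ν * c2 + (b + 1) * (r + b) * (4 * ν * c2 + 4 * β * c3) + b * co

/-- The parameters of one phase. -/
noncomputable def mkPar (q : ℕ) (β Λ ρ c2 c3 : ℝ) (cap : Finset α → ℝ)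
    (C F0 : Finset (Finset α)) : Par α where
  q := q
  β := β
  ν := β * Λ / ρ
  th := fun W => Λ / cap W
  lam := fun W => 4 * cap W / Λ * Real.exp (-Λ)
  cap := cap
  C := C
  F0 := F0
  c2 := c2
  c3 := c3

/-- **The phase lemma.** -/
theorem phase_main {m b r q : ℕ} (hr : 1 ≤ r) {β Λ ρ c2 c3 co T E : ℝ}
    (hβ : β = 1 + (b : ℝ) / r) (cap : Finset α → ℝ) (hcap : ∀ W, 0 < cap W)
    (C F0 : Finset (Finset α)) (hC : ∀ e ∈ C, e.card = 2) (hF0 : ∀ A ∈ F0, A.card = q)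
    (hratio : ∀ W W' : Finset α, (∃ A ∈ F0, W' ⊆ A) → W ⊂ W' → 2 ≤ W.card →
      ρ * cap W' ≤ cap W)
    (hq1 : ∀ A ∈ F0, 1 ≤ cap A) (hΛ : 1 ≤ Λ) (hρ : 2 * r * β * Λ ≤ ρ)
    (hinit : ∀ W : Finset α, (∃ A ∈ F0, W ⊆ A) → 2 ≤ W.card → W.card < q →
      tt β C ∅ F0 W ∅ ≤ cap W / 2)
    (hc2 : ∀ e ∈ C, (∃ A ∈ F0, e ⊆ A) → cap e ≤ c2) (hc20 : 0 ≤ c2)
    (hc3 : ∀ W : Finset α, (∃ A ∈ F0, W ⊆ A) → 3 ≤ W.card → cap W ≤ c3) (hc30 : 0 ≤ c3)
    (hmax : ∀ W : Finset α, (∃ A ∈ F0, W ⊆ A) → 2 ≤ W.card → cap W ≤ T)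
    (hT0 : 0 < T) (hWW : ((F0.biUnion powerset).card : ℝ) * (32 * Real.exp (-(Λ / 2))) ≤ 1)
    (hE : ((C.filter (fun e => ∃ A ∈ F0, e ⊆ A)).card : ℝ) ≤ E)
    (hloss : E * lossC r b β (β * Λ / ρ) c2 c3 co ≤ T / 8)
    (hT : 2 * T ≤ tt β C ∅ F0 ∅ ∅)
    (G : Finset α → Finset (Sym2 (Fin N)))
    (hG1 : ∀ e ∈ C, (∃ A ∈ F0, e ⊆ A) → G e ⊆ edges N ∧ r * (G e).card ≤ m)
    (hG2 : ∀ e e', (∃ A ∈ F0, e ⊆ A) → (∃ A ∈ F0, e' ⊆ A) → e.card = 2 → e'.card = 2 →
      e ≠ e' → Disjoint (G e) (G e'))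
    (hco0 : 0 ≤ co) (M B : Finset (Sym2 (Fin N)))
    (hco : ∀ e, (∃ A ∈ F0, e ⊆ A) → e.card = 2 → e ∉ C → cap e ≤ co ∨ G e ⊆ M)
    (hMB : Disjoint M B) (hal : ∀ A ∈ F0, alive G B A) :
    Reach (edges N) m b (fun M' B' => Disjoint M' B' ∧ M ⊆ M' ∧ ∃ F' ⊆ F0,
      (∀ A ∈ F', alive G B' A) ∧ (∀ A ∈ F', ∀ e ∈ C, e ⊆ A → G e ⊆ M') ∧
      T ≤ (F'.card : ℝ) ∧
      ∀ W : Finset α, 2 ≤ W.card → ((F'.filter (fun A => W ⊆ A)).card : ℝ) ≤ cap W) M B := by
  set P := mkPar q β Λ ρ c2 c3 cap C F0 with hPdef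
  have hr0 : (1 : ℝ) ≤ r := by exact_mod_cast hr
  have hβ1 : 1 ≤ β := by
    rw [hβ]
    have : (0 : ℝ) ≤ (b : ℝ) / r := by positivity
    linarith
  have hΛ0 : 0 < Λ := by linarith
  have hrβ : 1 ≤ r * β := by nlinarith
  have hρΛ : 2 * Λ ≤ ρ := by nlinarith
  have hρ0 : 0 < ρ := by linarith
  have hν0 : 0 ≤ β * Λ / ρ := by positivity
  have hrν : (r : ℝ) * (β * Λ / ρ) ≤ 1 / 2 := by
    rw [mul_div_assoc', div_le_iff₀ hρ0]
    linarith
  have hν1 : β * Λ / ρ ≤ 1 := by nlinarith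
  have hanti : ∀ W W' : Finset α, (∃ A ∈ F0, W' ⊆ A) → W ⊆ W' → 2 ≤ W.card →
      cap W' ≤ cap W := by
    intro W W' hV hWW hc
    by_cases heq : W = W'
    · rw [heq]
    · have h1 := hratio W W' hV (Finset.ssubset_iff_subset_ne.2 ⟨hWW, heq⟩) hc
      have h2 := hcap W'
      nlinarith
  have hP : P.Good := by
    refine ⟨hβ1, hν0, hν1, hC, hF0, ?_, ?_, ?_, fun W => (hcap W).le, hanti, hq1, ?_, ?_, hc20,
      hc30, hc2, hc3⟩
    · intro W
      exact div_pos hΛ0 (hcap W)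
    · intro W
      have := hcap W
      change 0 < 4 * cap W / Λ * Real.exp (-Λ)
      positivity
    · rintro W ⟨A, hA, hWA⟩ hc hq
      change Λ / cap W ≤ 1
      rw [div_le_one (hcap W)]
      have hss : W ⊂ A := by
        rw [Finset.ssubset_iff_subset_ne]
        refine ⟨hWA, fun heq => ?_⟩
        rw [heq] at hq
        have := hF0 A hA
        change A.card < q at hq
        omega
      have h1 := hratio W A ⟨A, hA, Finset.Subset.refl _⟩ hss hc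
      have h2 := hq1 A hA
      nlinarith
    · rintro W _ _ _
      change 4 * cap W / Λ * Real.exp (-Λ) * (Λ / cap W) * Real.exp (Λ / cap W * cap W) = 4
      have h1 := (hcap W).ne'
      have h2 : Λ / cap W * cap W = Λ := by field_simp
      rw [h2]
      have h3 : Real.exp (-Λ) * Real.exp Λ = 1 := by rw [← Real.exp_add]; simp
      have h4 : 4 * cap W / Λ * Real.exp (-Λ) * (Λ / cap W) * Real.exp Λ =
          4 * (Real.exp (-Λ) * Real.exp Λ) * (cap W / cap W) * (Λ / Λ) := by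
        field_simp
      rw [h4, h3, div_self h1, div_self hΛ0.ne']
      norm_num
    · intro W W' hV hss hc
      change Λ / cap W * (β * cap W') ≤ β * Λ / ρ
      have h1 := hratio W W' hV hss hc
      have h2 := hcap W
      rw [div_mul_eq_mul_div, div_le_div_iff₀ h2 hρ0]
      have h3 : 0 ≤ β * Λ := by positivity
      nlinarith [mul_le_mul_of_nonneg_left h1 h3]
  have hexp : 2 * Real.exp (r * P.ν) ≤ 4 := by
    have h1 : Real.exp (r * P.ν) ≤ Real.exp (1 / 2) := Real.exp_le_exp.2 hrν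
    have h2 : Real.exp (1 / 2) ≤ 2 := by
      have h3 : Real.exp (1 / 2) ^ 2 = Real.exp 1 := by
        rw [← Real.exp_nat_mul]
        norm_num
      have h4 := Real.exp_one_lt_d9
      have h5 := Real.exp_pos (1 / 2)
      nlinarith
    linarith
  have hSS : SS P ∅ F0 ≤ T / 8 := by
    have hterm : ∀ W ∈ WW P, P.lam W * Real.exp (P.th W * tt P.β P.C ∅ F0 W ∅) ≤
        4 * T * Real.exp (-(Λ / 2)) := by
      intro W hW
      obtain ⟨hV, hc, hq⟩ := mem_WW.1 hW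
      change 4 * cap W / Λ * Real.exp (-Λ) * Real.exp (Λ / cap W * tt β C ∅ F0 W ∅) ≤ _
      have h1 := hinit W hV hc hq
      have h2 := hcap W
      have h3 : Λ / cap W * tt β C ∅ F0 W ∅ ≤ Λ / 2 := by
        calc Λ / cap W * tt β C ∅ F0 W ∅ ≤ Λ / cap W * (cap W / 2) :=
              mul_le_mul_of_nonneg_left h1 (by positivity)
          _ = Λ / 2 := by field_simp
      have h4 := hmax W hV hc
      have h5 : 4 * cap W / Λ ≤ 4 * T := by
        rw [div_le_iff₀ hΛ0]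
        nlinarith
      calc 4 * cap W / Λ * Real.exp (-Λ) * Real.exp (Λ / cap W * tt β C ∅ F0 W ∅)
          ≤ 4 * T * Real.exp (-Λ) * Real.exp (Λ / 2) := by
            refine mul_le_mul ?_ (Real.exp_le_exp.2 h3) (Real.exp_pos _).le (by positivity)
            exact mul_le_mul_of_nonneg_right h5 (Real.exp_pos _).le
        _ = 4 * T * Real.exp (-(Λ / 2)) := by
            rw [mul_assoc, ← Real.exp_add]
            congr 2
            ring
    have hcard : ((WW P).card : ℝ) ≤ ((F0.biUnion powerset).card : ℝ) := by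
      exact_mod_cast Finset.card_filter_le _ _
    have hpos : 0 ≤ 4 * T * Real.exp (-(Λ / 2)) := by positivity
    unfold SS
    calc ∑ W ∈ WW P, P.lam W * Real.exp (P.th W * tt P.β P.C ∅ F0 W ∅)
        ≤ ∑ W ∈ WW P, 4 * T * Real.exp (-(Λ / 2)) := Finset.sum_le_sum hterm
      _ = (WW P).card * (4 * T * Real.exp (-(Λ / 2))) := by
          rw [Finset.sum_const, nsmul_eq_mul]
      _ ≤ ((F0.biUnion powerset).card : ℝ) * (4 * T * Real.exp (-(Λ / 2))) :=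
          mul_le_mul_of_nonneg_right hcard hpos
      _ = T / 8 * (((F0.biUnion powerset).card : ℝ) * (32 * Real.exp (-(Λ / 2)))) := by ring
      _ ≤ T / 8 * 1 := mul_le_mul_of_nonneg_left hWW (by positivity)
      _ = T / 8 := mul_one _
  have hLL : 2 * T - T / 8 ≤ LL P ∅ F0 := by
    have h1 : LL P ∅ F0 = tt β C ∅ F0 ∅ ∅ - SS P ∅ F0 := rfl
    linarith
  have hU : ((UU P ∅ F0).card : ℝ) ≤ E := by
    refine le_trans ?_ hE
    have h1 : UU P ∅ F0 = C.filter (fun e => ∃ A ∈ F0, e ⊆ A) := by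
      unfold UU
      rw [Finset.sdiff_empty]
      rfl
    rw [h1]
  have hl : lossT P r b co = lossC r b β (β * Λ / ρ) c2 c3 co := rfl
  have hlnn := lossT_nonneg hP r b hco0
  refine Reach.bind (phase_reach hP hr hβ hexp G hG1 hG2 hco0 M hco (UU P ∅ F0).card M B ∅ F0 hMB
    (Finset.Subset.refl _) (Finset.Subset.refl _) le_rfl hal
    (fun e he => absurd he (Finset.notMem_empty _))) ?_
  rintro M' B' ⟨h1, h2, F', hF', h3, h4, h5, h6⟩
  apply Reach.here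
  refine ⟨h1, h2, F', hF', h3, h4, ?_, h6⟩
  have h7 : ((UU P ∅ F0).card : ℝ) * lossT P r b co ≤ T / 8 :=
    (mul_le_mul_of_nonneg_right hU hlnn).trans (hl ▸ hloss)
  linarith

end Pool.Agent.Helper78.CH
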