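import Pool.Agent.Helper78.CH.Caps

set_option autoImplicit false

namespace Pool.Agent.Helper78.CH

open Finset

variable {α : Type*} [DecidableEq α]

/-- The increase of the penalty when Maker declares `x`. -/
theorem SS_maker {P : Par α} (hP : P.Good) {Md F : Finset (Finset α)}
    (h : St P 4 Md F) {x : Finset α} (hx : x ∈ P.C) (hxM : x ∉ Md) :
    SS P (insert x Md) F ≤ SS P Md F + (1 + P.ν) * (P.β - 1) * RR P Md F x := by
  unfold SS RR
  rw [Finset.mul_sum, Finset.sum_filter, ← Finset.sum_add_distrib]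
  apply Finset.sum_le_sum
  intro W hW
  have hW2 := mem_WW.1 hW
  by_cases hxW : x ⊆ W
  · rw [tt_insert_M_of_sub P.β P.C Md F ∅ hx hxW]
    simp [hxW]
  · rw [if_pos hxW, tt_insert_M hP.β_pos F ∅ hx hxM hxW, Finset.empty_union]
    unfold cf
    set t := tt P.β P.C Md F W ∅ with ht
    set s := tt P.β P.C Md F W x with hs
    set th := P.th W with hth
    have hthpos : 0 < th := hP.th_pos _
    have hlam : 0 < P.lam W := hP.lam_pos _
    have hs0 : 0 ≤ s := tt_nonneg hP.β_pos P.C Md F W _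
    have hscap : th * (P.β * s) ≤ P.ν := th_tt_le hP h hW2.2.1 hxW
    have hβ := hP.hβ
    have hν0 := hP.hν0
    have hν1 := hP.hν1
    have hz0 : 0 ≤ th * ((P.β - 1) * s) :=
      mul_nonneg hthpos.le (mul_nonneg (by linarith) hs0)
    have hz1 : th * ((P.β - 1) * s) ≤ P.ν := by
      refine le_trans ?_ hscap
      apply mul_le_mul_of_nonneg_left _ hthpos.le
      exact mul_le_mul_of_nonneg_right (by linarith) hs0
    set z := th * ((P.β - 1) * s) with hz
    have hexp : Real.exp z ≤ 1 + (1 + P.ν) * z := by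
      have habs : |z| ≤ 1 := by
        rw [abs_of_nonneg hz0]
        exact hz1.trans hν1
      have h1 := Real.abs_exp_sub_one_sub_id_le habs
      have h2 := (abs_le.1 h1).2
      have h3 : z ^ 2 ≤ P.ν * z := by
        rw [pow_two]
        exact mul_le_mul_of_nonneg_right hz1 hz0
      linarith
    have hsplit : Real.exp (th * (t + (P.β - 1) * s)) = Real.exp (th * t) * Real.exp z := by
      rw [hz, ← Real.exp_add]
      congr 1
      ring
    rw [hsplit]
    have he : 0 < Real.exp (th * t) := Real.exp_pos _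
    have h4 : P.lam W * (Real.exp (th * t) * Real.exp z)
        ≤ P.lam W * (Real.exp (th * t) * (1 + (1 + P.ν) * z)) := by
      apply mul_le_mul_of_nonneg_left _ hlam.le
      exact mul_le_mul_of_nonneg_left hexp he.le
    refine h4.trans (le_of_eq ?_)
    rw [hz]
    ring

/-- Maker declares `x`: the potential. -/
theorem LL_maker {P : Par α} (hP : P.Good) {Md F : Finset (Finset α)}
    (h : St P 4 Md F) {x : Finset α} (hx : x ∈ P.C) (hxM : x ∉ Md) :
    LL P Md F + (P.β - 1) * VV P Md F x - (P.β - 1) * (4 * P.ν * P.c2) ≤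
      LL P (insert x Md) F := by
  have h1 := SS_maker hP h hx hxM
  have hxE : ¬ x ⊆ (∅ : Finset α) := by
    intro hh
    have h1 := hP.pair x hx
    rw [Finset.subset_empty.1 hh] at h1
    simp at h1
  have h2 := tt_insert_M hP.β_pos F (∅ : Finset α) hx hxM hxE
  rw [Finset.empty_union] at h2
  have h3 : RR P Md F x ≤ 4 * P.c2 := RR_le hP h hx
  have hβ := hP.hβ
  have hν0 := hP.hν0
  unfold LL VV
  rw [h2]
  have h4 : P.ν * (P.β - 1) * RR P Md F x ≤ P.ν * (P.β - 1) * (4 * P.c2) :=
    mul_le_mul_of_nonneg_left h3 (mul_nonneg hν0 (by linarith))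
  nlinarith [h1, h4]

/-- Maker declares `x`: the dangers. -/
theorem Om_maker {P : Par α} (hP : P.Good) {Md F : Finset (Finset α)}
    (h : St P 4 Md F) {x : Finset α} (hx : x ∈ P.C) (hxM : x ∉ Md) (A : Finset α) :
    Om P (insert x Md) F A ≤ Real.exp P.ν * Om P Md F A := by
  have hβ0 : 0 < P.β := hP.β_pos
  have hcf : ∀ W ∈ WW P, cf P (insert x Md) F W ≤ Real.exp P.ν * cf P Md F W := by
    intro W hW
    have hW2 := mem_WW.1 hW
    have hth : 0 < P.th W := hP.th_pos _
    have hlt : 0 ≤ P.lam W * P.th W := mul_nonneg (hP.lam_pos _).le hth.le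
    have hkey : P.th W * tt P.β P.C (insert x Md) F W ∅ ≤
        P.ν + P.th W * tt P.β P.C Md F W ∅ := by
      by_cases hxW : x ⊆ W
      · rw [tt_insert_M_of_sub P.β P.C Md F ∅ hx hxW]
        linarith [hP.hν0]
      · rw [tt_insert_M hβ0 F ∅ hx hxM hxW, Finset.empty_union]
        have h1 := th_tt_le hP h hW2.2.1 hxW
        have h4 : 0 ≤ tt P.β P.C Md F W x := tt_nonneg hβ0 P.C Md F W x
        have h3 : (P.β - 1) * tt P.β P.C Md F W x ≤ P.β * tt P.β P.C Md F W x := by
          nlinarith [hP.hβ]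
        have h5 := mul_le_mul_of_nonneg_left h3 hth.le
        nlinarith
    unfold cf
    calc P.lam W * P.th W * Real.exp (P.th W * tt P.β P.C (insert x Md) F W ∅)
        ≤ P.lam W * P.th W * Real.exp (P.ν + P.th W * tt P.β P.C Md F W ∅) :=
          mul_le_mul_of_nonneg_left (Real.exp_le_exp.2 hkey) hlt
      _ = Real.exp P.ν * (P.lam W * P.th W *
            Real.exp (P.th W * tt P.β P.C Md F W ∅)) := by
          rw [Real.exp_add]; ring
  unfold Om
  rw [Finset.mul_sum]
  apply Finset.sum_le_sum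
  intro W hW
  have hWW : W ∈ WW P := (Finset.mem_filter.1 hW).1
  have hpow : P.β ^ (EI P.C W \ insert x Md).card ≤ P.β ^ (EI P.C W \ Md).card := by
    apply pow_le_pow_right₀ hP.hβ
    apply Finset.card_le_card
    exact Finset.sdiff_subset_sdiff (Finset.Subset.refl _) (Finset.subset_insert x Md)
  calc cf P (insert x Md) F W * P.β ^ (EI P.C W \ insert x Md).card
      ≤ (Real.exp P.ν * cf P Md F W) * P.β ^ (EI P.C W \ Md).card := by
        apply mul_le_mul (hcf W hWW) hpow (pow_nonneg hβ0.le _)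
        exact mul_nonneg (Real.exp_pos _).le (cf_nonneg hP Md F W)
    _ = Real.exp P.ν * (cf P Md F W * P.β ^ (EI P.C W \ Md).card) := by ring

/-- Maker declares `x`: the value of another pair `e`. -/
theorem VV_maker {P : Par α} (hP : P.Good) {Md F : Finset (Finset α)}
    (h : St P 4 Md F) {x e : Finset α} (hx : x ∈ P.C)
    (hxM : x ∉ Md) (he : e ∈ P.C) (hne : e ≠ x) :
    VV P (insert x Md) F e ≤ VV P Md F e + kap P := by
  have hβ0 : 0 < P.β := hP.β_pos
  have hxE : ¬ x ⊆ (∅ : Finset α) := by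
    intro hh
    have h1 := hP.pair x hx
    rw [Finset.subset_empty.1 hh] at h1
    simp at h1
  have h1 : tt P.β P.C (insert x Md) F ∅ e =
      tt P.β P.C Md F ∅ e + (P.β - 1) * tt P.β P.C Md F ∅ (e ∪ x) :=
    tt_insert_M hβ0 F e hx hxM hxE
  have h2 : tt P.β P.C Md F ∅ (e ∪ x) ≤ P.c3 := T2_le hP h (hP.pair e he) (hP.pair x hx) hne
  have h3 : 0 ≤ tt P.β P.C Md F ∅ (e ∪ x) := tt_nonneg hβ0 P.C Md F ∅ _
  have h4 : RR P Md F e ≤ RR P (insert x Md) F e := by
    unfold RR
    apply Finset.sum_le_sum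
    intro W _
    apply mul_le_mul (cf_mono_M hP (Finset.subset_insert x Md) F W)
      (tt_mono_M hP.hβ P.C (Finset.subset_insert x Md) F W e) (tt_nonneg hβ0 P.C Md F W e)
      (cf_nonneg hP _ F W)
  have h5 : (P.β - 1) * tt P.β P.C Md F ∅ (e ∪ x) ≤ kap P := by
    have h6 : 0 ≤ P.c3 := hP.c3_nonneg
    have h7 : 0 ≤ P.c2 := hP.c2_nonneg
    have h8 : 0 ≤ P.ν * P.c2 := mul_nonneg hP.hν0 h7
    have h9 : (P.β - 1) * tt P.β P.C Md F ∅ (e ∪ x) ≤ (P.β - 1) * P.c3 :=
      mul_le_mul_of_nonneg_left h2 (by linarith [hP.hβ])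
    have h10 : 0 ≤ P.β * P.c3 := mul_nonneg hβ0.le h6
    unfold kap
    nlinarith
  unfold VV
  rw [h1]
  linarith

end Pool.Agent.Helper78.CH
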