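import Pool.Agent.Helper78.CH.Basic

set_option autoImplicit false

namespace Pool.Agent.Helper78.CH

open Finset

variable {α : Type*} [DecidableEq α]

/-- Exchange of the order of summation. -/
theorem sum_cf_tt_le {P : Par α} (hP : P.Good) {Md : Finset (Finset α)}
    {F : Finset (Finset α)} {c : ℝ} (hOm : ∀ A ∈ F, Om P Md F A ≤ c)
    (D : Finset α) (p : Finset α → Prop) [DecidablePred p] :
    ∑ W ∈ (WW P).filter p, cf P Md F W * tt P.β P.C Md F W D ≤ c * tt P.β P.C Md F ∅ D := by
  have hβ := hP.β_pos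
  have h1 : ∀ W, cf P Md F W * tt P.β P.C Md F W D = ∑ A ∈ F.filter (fun A => D ⊆ A),
      wt P.β P.C Md ∅ A * (if W ⊆ A then cf P Md F W * P.β ^ (EI P.C W \ Md).card else 0) := by
    intro W
    have h2 : tt P.β P.C Md F W D = ∑ A ∈ F.filter (fun A => D ⊆ A),
        if W ⊆ A then wt P.β P.C Md W A else 0 := by
      unfold tt
      rw [← Finset.sum_filter, Finset.filter_filter]
      refine Finset.sum_congr ?_ fun _ _ => rfl
      ext A
      simp only [mem_filter]
      tauto
    rw [h2, Finset.mul_sum]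
    refine Finset.sum_congr rfl fun A _ => ?_
    by_cases hWA : W ⊆ A
    · rw [if_pos hWA, if_pos hWA, wt_eq hβ hP.pair Md hWA]
      ring
    · rw [if_neg hWA, if_neg hWA, mul_zero, mul_zero]
  have h3 : ∑ W ∈ (WW P).filter p, cf P Md F W * tt P.β P.C Md F W D
      ≤ ∑ W ∈ WW P, cf P Md F W * tt P.β P.C Md F W D :=
    Finset.sum_le_sum_of_subset_of_nonneg (Finset.filter_subset _ _)
      fun W _ _ => mul_nonneg (cf_nonneg hP Md F W) (tt_nonneg hβ P.C Md F W D)
  refine h3.trans ?_
  rw [Finset.sum_congr rfl fun W _ => h1 W, Finset.sum_comm]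
  have h4 : tt P.β P.C Md F ∅ D = ∑ A ∈ F.filter (fun A => D ⊆ A), wt P.β P.C Md ∅ A := by
    unfold tt
    refine Finset.sum_congr ?_ fun _ _ => rfl
    ext A
    simp only [mem_filter, Finset.empty_subset, true_and]
  rw [h4, Finset.mul_sum]
  refine Finset.sum_le_sum fun A hA => ?_
  rw [← Finset.mul_sum, ← Finset.sum_filter, mul_comm]
  exact mul_le_mul_of_nonneg_right (hOm A (Finset.mem_filter.1 hA).1) (wt_pos hβ P.C Md ∅ A).le

end Pool.Agent.Helper78.CH
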