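import Pool.Agent.Helper78.CH.Maker
import Pool.Agent.Helper78.CH.Breaker

set_option autoImplicit false

namespace Pool.Agent.Helper78.CH

open Finset

variable {α : Type*} [DecidableEq α]

/-- Maker's turn: `i` steps; in each step the undecided pair of the largest value is declared if its
value is nonnegative and killed voluntarily otherwise. -/
theorem maker_turn {P : Par α} (hP : P.Good) {Md F U : Finset (Finset α)}
    (hU : U ⊆ P.C) (hUM : Disjoint U Md) (h : St P 2 Md F)
    {r : ℕ} (hν : 2 * Real.exp (r * P.ν) ≤ 4) (i : ℕ) (hir : i ≤ r) (hi : i ≤ U.card) :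
    ∃ X K : Finset (Finset α), X ⊆ U ∧ K ⊆ U ∧ Disjoint X K ∧ X.card + K.card = i ∧
      St P (2 * Real.exp (i * P.ν)) (Md ∪ X) (brk F K) ∧ ∃ v : ℝ, 0 ≤ v ∧
      LL P Md F + (P.β - 1) * v - i * (P.β * (4 * P.ν * P.c2)) ≤ LL P (Md ∪ X) (brk F K) ∧
      ∀ z ∈ U \ (X ∪ K), i * VV P (Md ∪ X) (brk F K) z ≤ v + i ^ 2 * kap P := by
  have hkap : 0 ≤ kap P := kap_nonneg hP
  have hνc : 0 ≤ 4 * P.ν * P.c2 := by
    have h1 := hP.hν0
    have h2 := hP.c2_nonneg
    positivity
  have hβ := hP.hβ
  induction i with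
  | zero =>
    refine ⟨∅, ∅, Finset.empty_subset _, Finset.empty_subset _, Finset.disjoint_empty_left _,
      rfl, ?_, 0, le_rfl, ?_, ?_⟩
    · rw [brk_empty]; simpa using h
    · rw [brk_empty]; simp
    · intro z _
      simp
  | succ i ih =>
    obtain ⟨X, K, hXU, hKU, hXK, hXKc, hSt, v, hv0, hLL, hv⟩ := ih (by omega) (by omega)
    have hXKU : X ∪ K ⊆ U := Finset.union_subset hXU hKU
    have hcard : (X ∪ K).card = i := by rw [Finset.card_union_of_disjoint hXK, hXKc]
    have hne : (U \ (X ∪ K)).Nonempty := by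
      rw [← Finset.card_pos, Finset.card_sdiff_of_subset hXKU]
      omega
    obtain ⟨x, hx, hmax⟩ := Finset.exists_max_image (U \ (X ∪ K)) (VV P (Md ∪ X) (brk F K)) hne
    rw [Finset.mem_sdiff, Finset.mem_union, not_or] at hx
    have hxM : x ∉ Md ∪ X := by
      rw [Finset.mem_union, not_or]
      exact ⟨Finset.disjoint_left.1 hUM hx.1, hx.2.1⟩
    have hxC : x ∈ P.C := hU hx.1
    have hSt4 : St P 4 (Md ∪ X) (brk F K) := by
      refine ⟨hSt.1, fun A hA => (hSt.2 A hA).trans (le_trans ?_ hν)⟩
      have h1 : (i : ℝ) * P.ν ≤ r * P.ν := by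
        apply mul_le_mul_of_nonneg_right _ hP.hν0
        exact_mod_cast (by omega : i ≤ r)
      have h2 := Real.exp_le_exp.2 h1
      linarith
    have hi0 : (0 : ℝ) ≤ i := Nat.cast_nonneg i
    by_cases hpos : 0 ≤ VV P (Md ∪ X) (brk F K) x
    · have hun : Md ∪ insert x X = insert x (Md ∪ X) := by
        rw [Finset.union_insert]
      refine ⟨insert x X, K, ?_, hKU, ?_, ?_, ?_, v + VV P (Md ∪ X) (brk F K) x, ?_, ?_, ?_⟩
      · exact Finset.insert_subset hx.1 hXU
      · rw [Finset.disjoint_insert_left]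
        exact ⟨hx.2.2, hXK⟩
      · rw [Finset.card_insert_of_notMem hx.2.1]
        omega
      · refine ⟨hSt.1, fun A hA => ?_⟩
        rw [hun]
        refine (Om_maker hP hSt4 hxC hxM A).trans ?_
        calc Real.exp P.ν * Om P (Md ∪ X) (brk F K) A
            ≤ Real.exp P.ν * (2 * Real.exp (i * P.ν)) :=
              mul_le_mul_of_nonneg_left (hSt.2 A hA) (Real.exp_pos _).le
          _ = 2 * Real.exp (((i + 1 : ℕ) : ℝ) * P.ν) := by
              have : ((i + 1 : ℕ) : ℝ) * P.ν = P.ν + i * P.ν := by push_cast; ring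
              rw [this, Real.exp_add]
              ring
      · exact add_nonneg hv0 hpos
      · rw [hun]
        refine le_trans ?_ (LL_maker hP hSt4 hxC hxM)
        push_cast
        nlinarith
      · intro z hz
        rw [Finset.mem_sdiff, Finset.mem_union, Finset.mem_insert, not_or, not_or] at hz
        have hz' : z ∈ U \ (X ∪ K) := by
          rw [Finset.mem_sdiff, Finset.mem_union, not_or]
          exact ⟨hz.1, hz.2.1.2, hz.2.2⟩
        have h1 := VV_maker hP hSt4 hxC hxM (hU hz.1) hz.2.1.1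
        have h2 := hv z hz'
        have h3 := hmax z hz'
        rw [hun]
        push_cast
        have h4 := mul_le_mul_of_nonneg_left h1 (by positivity : (0 : ℝ) ≤ i + 1)
        have h5 : 0 ≤ (i : ℝ) * kap P := by positivity
        nlinarith
    · push Not at hpos
      have hbk : brk F (insert x K) = brk (brk F K) {x} := brk_insert F K x
      refine ⟨X, insert x K, hXU, ?_, ?_, ?_, ?_, v, hv0, ?_, ?_⟩
      · exact Finset.insert_subset hx.1 hKU
      · rw [Finset.disjoint_insert_right]
        exact ⟨hx.2.1, hXK⟩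
      · rw [Finset.card_insert_of_notMem hx.2.2]
        omega
      · rw [hbk]
        refine ⟨(brk_subset _ _).trans hSt.1, fun A hA => ?_⟩
        refine ((St_brk hP hSt {x}).2 A hA).trans ?_
        have : (i : ℝ) * P.ν ≤ ((i + 1 : ℕ) : ℝ) * P.ν := by
          push_cast
          nlinarith [hP.hν0]
        have := Real.exp_le_exp.2 this
        linarith
      · rw [hbk]
        refine le_trans ?_ (LL_breaker hP hSt4 hxC)
        push_cast
        nlinarith
      · intro z hz
        rw [Finset.mem_sdiff, Finset.mem_union, Finset.mem_insert, not_or, not_or] at hz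
        have hz' : z ∈ U \ (X ∪ K) := by
          rw [Finset.mem_sdiff, Finset.mem_union, not_or]
          exact ⟨hz.1, hz.2.1, hz.2.2.2⟩
        have h1 := VV_breaker hP hSt4 (hP.pair x hxC) (hU hz.1) hz.2.2.1
        have h2 := hv z hz'
        have h3 := hmax z hz'
        rw [hbk]
        push_cast
        have h4 := mul_le_mul_of_nonneg_left h1 (by positivity : (0 : ℝ) ≤ i + 1)
        have h5 : 0 ≤ (i : ℝ) * kap P := by positivity
        nlinarith

/-- Breaker's turn. -/
theorem breaker_turn {P : Par α} (hP : P.Good) {Md F : Finset (Finset α)} (h : St P 4 Md F)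
    {co : ℝ} (hco0 : 0 ≤ co) (Y : Finset (Finset α)) (hY : ∀ y ∈ Y, y.card = 2)
    (hco : ∀ y ∈ Y, y ∉ P.C → P.Val y → P.cap y ≤ co) :
    LL P Md F - ∑ y ∈ Y.filter (fun y => y ∈ P.C), VV P Md F y - (Y.card : ℝ) ^ 2 * kap P -
        Y.card * (4 * P.ν * P.c2) - Y.card * co ≤ LL P Md (brk F Y) ∧
    ∀ z ∈ P.C, z ∉ Y → VV P Md (brk F Y) z ≤ VV P Md F z + Y.card * kap P := by
  have hkap : 0 ≤ kap P := kap_nonneg hP
  have hνc : 0 ≤ 4 * P.ν * P.c2 := by
    have h1 := hP.hν0
    have h2 := hP.c2_nonneg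
    positivity
  induction Y using Finset.induction_on with
  | empty =>
    rw [brk_empty]
    refine ⟨by simp, fun z _ _ => by simp⟩
  | insert y Y hy ih =>
    have hY' : ∀ z ∈ Y, z.card = 2 := fun z hz => hY z (Finset.mem_insert_of_mem hz)
    have hco' : ∀ z ∈ Y, z ∉ P.C → P.Val z → P.cap z ≤ co :=
      fun z hz => hco z (Finset.mem_insert_of_mem hz)
    obtain ⟨ih1, ih2⟩ := ih hY' hco'
    have hSt := St_brk hP h Y
    have hy2 : y.card = 2 := hY y (Finset.mem_insert_self y Y)
    rw [brk_insert, Finset.card_insert_of_notMem hy]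
    have h5 : 0 ≤ (Y.card : ℝ) * kap P := by positivity
    constructor
    · by_cases hyC : y ∈ P.C
      · have h1 := LL_breaker hP hSt hyC
        have h2 := ih2 y hyC hy
        rw [Finset.filter_insert, if_pos hyC, Finset.sum_insert (by
          rw [Finset.mem_filter]; exact fun hh => hy hh.1)]
        refine le_trans ?_ h1
        push_cast
        nlinarith
      · have h1 := LL_out hP hSt hy2 hco0 (hco y (Finset.mem_insert_self y Y) hyC)
        rw [Finset.filter_insert, if_neg hyC]
        refine le_trans ?_ h1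
        push_cast
        nlinarith
    · intro z hz hzY
      rw [Finset.mem_insert, not_or] at hzY
      have h3 := VV_breaker hP hSt hy2 hz hzY.1
      have h4 := ih2 z hz hzY.2
      push_cast
      linarith

/-- One full turn. -/
theorem full_turn {P : Par α} (hP : P.Good) {r b : ℕ} (hr : 1 ≤ r)
    (hβ : P.β = 1 + (b : ℝ) / r) (hν : 2 * Real.exp (r * P.ν) ≤ 4)
    {Md F : Finset (Finset α)} (h : St P 2 Md F) {co : ℝ} (hco0 : 0 ≤ co) :
    ∃ X K : Finset (Finset α), X ⊆ UU P Md F ∧ K ⊆ UU P Md F ∧ X.card ≤ r ∧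
      ((UU P Md F).Nonempty → (X ∪ K).Nonempty) ∧
      ∀ Y : Finset (Finset α), Y.card ≤ b → (∀ y ∈ Y, y.card = 2) →
        (∀ y ∈ Y, y ∈ P.C → y ∈ UU P Md F \ (X ∪ K)) →
        (∀ y ∈ Y, y ∉ P.C → P.Val y → P.cap y ≤ co) →
        LL P Md F - lossT P r b co ≤ LL P (Md ∪ X) (brk (brk F K) Y) := by
  have hkap : 0 ≤ kap P := kap_nonneg hP
  have hνc : 0 ≤ 4 * P.ν * P.c2 := by
    have h1 := hP.hν0
    have h2 := hP.c2_nonneg
    positivity
  have hβ1 := hP.hβ
  have hUC : UU P Md F ⊆ P.C := (Finset.filter_subset _ _).trans Finset.sdiff_subset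
  have hUM : Disjoint (UU P Md F) Md := by
    rw [Finset.disjoint_left]
    intro e he
    exact (Finset.mem_sdiff.1 (Finset.mem_filter.1 he).1).2
  set i := min r (UU P Md F).card with hi
  obtain ⟨X, K, hXU, hKU, hXK, hXKc, hSt, v, hv0, hL, hV⟩ := maker_turn hP hUC hUM h hν i
    (min_le_left _ _) (min_le_right _ _)
  have hir : i ≤ r := min_le_left _ _
  refine ⟨X, K, hXU, hKU, by omega, ?_, ?_⟩
  · intro hne
    rw [← Finset.card_pos, Finset.card_union_of_disjoint hXK, hXKc]
    have := Finset.card_pos.2 hne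
    omega
  · intro Y hYb hY2 hYC hYo
    have hSt4 : St P 4 (Md ∪ X) (brk F K) := by
      refine ⟨hSt.1, fun A hA => (hSt.2 A hA).trans (le_trans ?_ hν)⟩
      have h1 : (i : ℝ) * P.ν ≤ r * P.ν := by
        apply mul_le_mul_of_nonneg_right _ hP.hν0
        exact_mod_cast hir
      have h2 := Real.exp_le_exp.2 h1
      linarith
    have hb := (breaker_turn hP hSt4 hco0 Y hY2 hYo).1
    have hr0 : (0 : ℝ) < r := by exact_mod_cast hr
    have hb0 : (0 : ℝ) ≤ b := by positivity
    have hα : P.β - 1 = (b : ℝ) / r := by rw [hβ]; ring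
    have hYb' : (Y.card : ℝ) ≤ b := by exact_mod_cast hYb
    have hY0 : (0 : ℝ) ≤ Y.card := Nat.cast_nonneg _
    -- the sum of the values
    have hsum : ∑ y ∈ Y.filter (fun y => y ∈ P.C), VV P (Md ∪ X) (brk F K) y ≤
        (P.β - 1) * v + b * r * kap P := by
      by_cases hUr : r ≤ (UU P Md F).card
      · have hir' : i = r := min_eq_left hUr
        have hz : ∀ y ∈ Y.filter (fun y => y ∈ P.C), VV P (Md ∪ X) (brk F K) y ≤
            (v + r ^ 2 * kap P) / r := by
          intro y hy
          rw [Finset.mem_filter] at hy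
          have := hV y (hYC y hy.1 hy.2)
          rw [hir'] at this
          rw [le_div_iff₀ hr0]
          linarith
        have h1 := Finset.sum_le_card_nsmul _ _ _ hz
        rw [nsmul_eq_mul] at h1
        have h2 : ((Y.filter (fun y => y ∈ P.C)).card : ℝ) ≤ b :=
          le_trans (by exact_mod_cast Finset.card_filter_le _ _) hYb'
        have h3 : 0 ≤ (v + r ^ 2 * kap P) / r := by positivity
        have h4 : (b : ℝ) * ((v + r ^ 2 * kap P) / r) = (P.β - 1) * v + b * r * kap P := by
          rw [hα]; field_simp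
        calc _ ≤ _ := h1
          _ ≤ (b : ℝ) * ((v + r ^ 2 * kap P) / r) := mul_le_mul_of_nonneg_right h2 h3
          _ = _ := h4
      · have hiU : i = (UU P Md F).card := min_eq_right (by omega)
        have hall : UU P Md F \ (X ∪ K) = ∅ := by
          have h1 : (X ∪ K).card = (UU P Md F).card := by
            rw [Finset.card_union_of_disjoint hXK, hXKc, hiU]
          have h2 := Finset.eq_of_subset_of_card_le (Finset.union_subset hXU hKU) h1.ge
          rw [h2, Finset.sdiff_self]
        have hYe : Y.filter (fun y => y ∈ P.C) = ∅ := by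
          rw [Finset.filter_eq_empty_iff]
          intro y hy hyC
          have := hYC y hy hyC
          rw [hall] at this
          exact absurd this (Finset.notMem_empty _)
        rw [hYe, Finset.sum_empty]
        have : 0 ≤ (P.β - 1) * v := mul_nonneg (by linarith) hv0
        positivity
    have h6 : (Y.card : ℝ) ^ 2 * kap P ≤ b ^ 2 * kap P :=
      mul_le_mul_of_nonneg_right (by nlinarith) hkap
    have h7 : (Y.card : ℝ) * (4 * P.ν * P.c2) ≤ b * (4 * P.ν * P.c2) :=
      mul_le_mul_of_nonneg_right hYb' hνc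
    have h8 : (Y.card : ℝ) * co ≤ b * co := mul_le_mul_of_nonneg_right hYb' hco0
    have h9 : (i : ℝ) * (P.β * (4 * P.ν * P.c2)) ≤ r * (P.β * (4 * P.ν * P.c2)) := by
      apply mul_le_mul_of_nonneg_right (by exact_mod_cast hir)
      positivity
    have h10 : (b * r : ℝ) * kap P + b ^ 2 * kap P ≤ (b + 1) * (r + b) * kap P := by
      have : (b * r : ℝ) + b ^ 2 ≤ (b + 1) * (r + b) := by nlinarith
      nlinarith
    unfold lossT
    nlinarith [hb, hL, hsum, h6, h7, h8, h9, h10]

end Pool.Agent.Helper78.CH
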